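import Pool.Agent.Helper401_FP.Det

set_option autoImplicit false

open MeasureTheory Set

/-!
First-passage percolation on `Z^d`: balls and explosions, deterministic part (helper401).
-/

namespace Pool.Agent.Helper401_FP

open Pool.Agent.Y990.CB

noncomputable section

variable {d : ℕ} {W : Sym2 (Z d) → ℝ}

/-- Vertices reached with cost at most `s`. -/
def Bs (W : Sym2 (Z d) → ℝ) (x : Z d) (s : ℝ) : Set (Z d) :=
  {v | ∃ w : (Lat d).Walk x v, cost W w ≤ s}

/-- Vertices reached with cost less than `s`. -/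
def Us (W : Sym2 (Z d) → ℝ) (x : Z d) (s : ℝ) : Set (Z d) :=
  {v | ∃ w : (Lat d).Walk x v, cost W w < s}

/-- The ball explodes at a finite time. -/
def Bad (W : Sym2 (Z d) → ℝ) (x : Z d) : Prop :=
  ∃ s0 : ℝ, (∀ s < s0, (Bs W x s).Finite) ∧ (Us W x s0).Infinite

lemma Bs_mono (x : Z d) {s s' : ℝ} (h : s ≤ s') : Bs W x s ⊆ Bs W x s' :=
  fun _ ⟨w, hw⟩ => ⟨w, hw.trans h⟩

/-- Inside a finite set there is a minimal walk. -/
theorem min_in (hW : ∀ s, 0 ≤ W s) {x y : Z d} {R : Set (Z d)} (hR : R.Finite)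
    (h : ∃ w : (Lat d).Walk x y, InR w R) :
    ∃ w : (Lat d).Walk x y, InR w R ∧ ∀ w' : (Lat d).Walk x y, InR w' R →
      cost W w ≤ cost W w' := by
  classical
  set S : Set ℝ := {c | ∃ p : (Lat d).Walk x y, p.IsPath ∧ InR p R ∧ cost W p = c} with hS
  have hedge : (Set.image (fun q : Z d × Z d => s(q.1, q.2)) (R ×ˢ R)).Finite :=
    (hR.prod hR).image _
  have hfin : S.Finite := by
    refine (((hedge.toFinset.powerset : Finset (Finset (Sym2 (Z d)))).image
      (fun F => ∑ s ∈ F, W s)).finite_toSet).subset ?_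
    rintro c ⟨p, hp, hpR, rfl⟩
    rw [Finset.mem_coe, Finset.mem_image]
    refine ⟨p.edges.toFinset, ?_, ?_⟩
    · rw [Finset.mem_powerset]
      intro s hs
      rw [List.mem_toFinset] at hs
      rw [Set.Finite.mem_toFinset]
      induction s using Sym2.inductionOn with
      | hf a b =>
        exact ⟨(a, b), ⟨hpR a (p.fst_mem_support_of_mem_edges hs),
          hpR b (p.snd_mem_support_of_mem_edges hs)⟩, rfl⟩
    · rw [List.sum_toFinset _ hp.isTrail.edges_nodup]
      rfl
  have hby : ∀ w : (Lat d).Walk x y, InR w R → ∃ c ∈ S, c ≤ cost W w := by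
    intro w hw
    refine ⟨cost W w.bypass, ⟨w.bypass, w.bypass_isPath, fun v hv =>
      hw v (w.support_bypass_subset_support hv), rfl⟩, ?_⟩
    have h2 : w.bypass.edges ⊆ w.edges := w.edges_bypass_subset_edges
    have h3 : w.bypass.edges.Nodup := w.bypass_isPath.isTrail.edges_nodup
    unfold cost
    rw [← List.sum_toFinset W h3]
    calc ∑ s ∈ w.bypass.edges.toFinset, W s ≤ ∑ s ∈ w.edges.toFinset, W s :=
          Finset.sum_le_sum_of_subset_of_nonneg (fun s hs => by
            rw [List.mem_toFinset] at hs ⊢; exact h2 hs) (fun s _ _ => hW s)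
      _ ≤ (w.edges.map W).sum := by
          generalize w.edges = l
          induction l with
          | nil => simp
          | cons a l ih =>
            rw [List.toFinset_cons, List.map_cons, List.sum_cons]
            by_cases ha : a ∈ l.toFinset
            · rw [Finset.insert_eq_of_mem ha]
              linarith [hW a]
            · rw [Finset.sum_insert ha]
              linarith
  obtain ⟨w0, hw0⟩ := h
  obtain ⟨c1, hc1, hc1w⟩ := hby w0 hw0
  obtain ⟨c, hcS, hle⟩ := Set.exists_min_image S id hfin ⟨c1, hc1⟩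
  simp only [id] at hle
  obtain ⟨p, hp, hpR, rfl⟩ := hcS
  refine ⟨p, hpR, fun w hw => ?_⟩
  obtain ⟨c', hc', hcw⟩ := hby w hw
  exact (hle c' hc').trans hcw

/-- Every vertex of a walk is reached by its first part. -/
lemma split_at {x y v : Z d} (w : (Lat d).Walk x y) (hv : v ∈ w.support) :
    ∃ (p : (Lat d).Walk x v) (q : (Lat d).Walk v y), w = p.append q := by
  classical
  exact ⟨w.takeUntil v hv, w.dropUntil v hv, (w.take_spec hv).symm⟩

lemma InR_Bs (hW : ∀ s, 0 ≤ W s) {x y : Z d} {s : ℝ} (w : (Lat d).Walk x y)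
    (h : cost W w ≤ s) : InR w (Bs W x s) := by
  intro v hv
  obtain ⟨p, q, hpq⟩ := split_at w hv
  refine ⟨p, ?_⟩
  have h1 : cost W w = cost W p + cost W q := by rw [hpq, cost_append]
  have h2 := cost_nonneg hW q
  linarith

/-- First exit of a walk from a set. -/
lemma exit_set {F : Set (Z d)} {x z : Z d} (w : (Lat d).Walk x z) (hx : x ∈ F) (hz : z ∉ F) :
    ∃ (u v : Z d) (p : (Lat d).Walk x u) (q : (Lat d).Walk v z) (_ : (Lat d).Adj u v),
      u ∈ F ∧ v ∉ F ∧ InR p F ∧ cost W w = cost W p + W s(u, v) + cost W q := by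
  induction w with
  | nil => exact absurd hx hz
  | cons h q ih =>
    rename_i a b c
    by_cases hb : b ∈ F
    · obtain ⟨u, v, p, q', huv, h1, h2, h3, h4⟩ := ih hb hz
      refine ⟨u, v, SimpleGraph.Walk.cons h p, q', huv, h1, h2, ?_, ?_⟩
      · intro z' hz'
        rw [SimpleGraph.Walk.support_cons, List.mem_cons] at hz'
        rcases hz' with rfl | hz'
        · exact hx
        · exact h3 z' hz'
      · rw [cost_cons, cost_cons, h4]; ring
    · refine ⟨a, b, SimpleGraph.Walk.nil, q, h, hx, hb, ?_, ?_⟩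
      · intro z' hz'
        rw [SimpleGraph.Walk.support_nil, List.mem_singleton] at hz'
        rw [hz']; exact hx
      · rw [cost_cons, cost_nil]; ring

/-- The neighbours of a finite set form a finite set. -/
lemma nbr_fin {F : Set (Z d)} (hF : F.Finite) : {v : Z d | ∃ u ∈ F, Nb u v}.Finite := by
  have h1 : {v : Z d | ∃ u ∈ F, Nb u v} ⊆ ⋃ u ∈ F, Bo u 1 := by
    rintro v ⟨u, hu, huv⟩
    rw [mem_iUnion₂]
    refine ⟨u, hu, fun i => ?_⟩
    have := Nb_coord (Nb_comm.1 huv) i
    exact_mod_cast this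
  exact (hF.biUnion fun u _ => Bo_finite u 1).subset h1

/-- If a ball is finite, the slightly larger balls are the same. -/
lemma Bs_gap (hW : ∀ s, 0 ≤ W s) {x : Z d} {s0 : ℝ} (h0 : 0 ≤ s0) (hfin : (Bs W x s0).Finite) :
    ∃ s1, s0 < s1 ∧ ∀ s < s1, (Bs W x s).Finite := by
  classical
  set F := Bs W x s0 with hF
  have hxF : x ∈ F := ⟨SimpleGraph.Walk.nil, by rw [cost_nil]; exact h0⟩
  set N : Set (Z d) := {v | v ∉ F ∧ ∃ u ∈ F, Nb u v} with hN
  have hNfin : N.Finite := (nbr_fin hfin).subset fun v hv => hv.2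
  have hFN : (F ∪ N).Finite := hfin.union hNfin
  have hmin : ∀ v ∈ N, ∃ m, s0 < m ∧ ∀ w : (Lat d).Walk x v, InR w (F ∪ N) → m ≤ cost W w := by
    intro v hv
    by_cases hex : ∃ w : (Lat d).Walk x v, InR w (F ∪ N)
    · obtain ⟨w, _, hw⟩ := min_in hW hFN hex
      refine ⟨cost W w, ?_, hw⟩
      by_contra hc
      push Not at hc
      exact hv.1 ⟨w, hc⟩
    · exact ⟨s0 + 1, by linarith, fun w hw => absurd ⟨w, hw⟩ hex⟩
  choose! m hm1 hm2 using hmin
  obtain ⟨s1, h1, h2⟩ : ∃ s1, s0 < s1 ∧ ∀ v ∈ N, s1 ≤ m v := by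
    rcases N.eq_empty_or_nonempty with hE | hne
    · exact ⟨s0 + 1, by linarith, fun v hv => absurd hv (by rw [hE]; exact notMem_empty v)⟩
    · obtain ⟨v0, hv0, hle⟩ := Set.exists_min_image N m hNfin hne
      exact ⟨m v0, hm1 v0 hv0, hle⟩
  refine ⟨s1, h1, fun s hs => hfin.subset ?_⟩
  rintro z ⟨w, hw⟩
  by_contra hz
  obtain ⟨u, v, p, q, huv, g1, g2, g3, g4⟩ := exit_set (W := W) w hxF hz
  have hvN : v ∈ N := ⟨g2, u, g1, huv⟩
  have hpv : InR (p.append (SimpleGraph.Walk.cons huv SimpleGraph.Walk.nil)) (F ∪ N) := by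
    refine InR_append (InR_mono subset_union_left g3) ?_
    intro z' hz'
    rw [SimpleGraph.Walk.support_cons, SimpleGraph.Walk.support_nil, List.mem_cons,
      List.mem_singleton] at hz'
    rcases hz' with rfl | rfl
    · exact Or.inl g1
    · exact Or.inr hvN
  have h3 := hm2 v hvN _ hpv
  rw [cost_append, cost_cons, cost_nil] at h3
  have h4 := h2 v hvN
  have h5 := cost_nonneg hW q
  linarith

/-- The zero cluster. -/
def Zc (W : Sym2 (Z d) → ℝ) (v : Z d) : Set (Z d) := cl (bondM d) (zc W) univ v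

/-- A vertex reached with cost at most `s0` is close to the open ball, up to zero edges. -/
lemma Bs_cover (hW : ∀ s, 0 ≤ W s) {x : Z d} {s0 : ℝ} {v : Z d} (hv : v ∈ Bs W x s0) :
    v ∈ Us W x s0 ∨ ∃ v' ∈ ({x} ∪ {v | ∃ u ∈ Us W x s0, Nb u v}) ∩ Bs W x s0, v ∈ Zc W v' := by
  obtain ⟨w, hw⟩ := hv
  have key : ∀ (n : ℕ) (v : Z d) (w : (Lat d).Walk x v), w.length = n → cost W w ≤ s0 →
      v ∈ Us W x s0 ∨ ∃ v' ∈ ({x} ∪ {v | ∃ u ∈ Us W x s0, Nb u v}) ∩ Bs W x s0,
        v ∈ Zc W v' := by
    intro n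
    induction n with
    | zero =>
      intro v w hn hw
      have hxv : x = v := SimpleGraph.Walk.eq_of_length_eq_zero hn
      subst hxv
      exact Or.inr ⟨x, ⟨Or.inl rfl, w, hw⟩, SimpleGraph.Reachable.refl _⟩
    | succ n ih =>
      intro v w hn hw
      -- remove the last edge
      have hrev : w.reverse.length = n + 1 := by rw [SimpleGraph.Walk.length_reverse]; exact hn
      obtain ⟨a, hadj, q, hq⟩ : ∃ (a : Z d) (hadj : (Lat d).Adj v a) (q : (Lat d).Walk a x),
          w.reverse = SimpleGraph.Walk.cons hadj q := by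
        cases hwr : w.reverse with
        | nil =>
          rw [hwr] at hrev
          simp at hrev
        | cons h q => exact ⟨_, h, q, rfl⟩
      have hqlen : q.reverse.length = n := by
        rw [SimpleGraph.Walk.length_reverse]
        rw [hq, SimpleGraph.Walk.length_cons] at hrev
        omega
      have hcost : cost W w = W s(v, a) + cost W q.reverse := by
        rw [← cost_reverse w, hq, cost_cons, cost_reverse]
      have h1 := hW s(v, a)
      have h2 := cost_nonneg hW q.reverse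
      by_cases hvU : v ∈ Us W x s0
      · exact Or.inl hvU
      right
      rcases ih a q.reverse hqlen (by linarith) with ha | ⟨v', hv', ha⟩
      · exact ⟨v, ⟨Or.inr ⟨a, ha, Nb_comm.1 hadj⟩, w, hw⟩, SimpleGraph.Reachable.refl _⟩
      · by_cases haU : a ∈ Us W x s0
        · exact ⟨v, ⟨Or.inr ⟨a, haU, Nb_comm.1 hadj⟩, w, hw⟩, SimpleGraph.Reachable.refl _⟩
        · refine ⟨v', hv', ?_⟩
          have h3 : s0 ≤ cost W q.reverse := by
            by_contra hc
            push Not at hc
            exact haU ⟨q.reverse, hc⟩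
          have h4 : W s(v, a) = 0 := by linarith
          refine SimpleGraph.Reachable.trans ha (SimpleGraph.Adj.reachable ?_)
          rw [adj_zc]
          exact ⟨Nb_comm.1 hadj, trivial, trivial, by rw [Sym2.eq_swap]; exact h4⟩
  exact key w.length v w rfl hw

/-- The zero cluster of a vertex of a ball is contained in the ball. -/
lemma Zc_sub {x v : Z d} {s : ℝ} (hv : v ∈ Bs W x s) : Zc W v ⊆ Bs W x s := by
  obtain ⟨w, hw⟩ := hv
  intro z hz
  obtain ⟨p, _, hp⟩ := cost_of_reach (W := W) (R := univ) (mem_univ v) hz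
  refine ⟨w.append p, ?_⟩
  rw [cost_append, hp, add_zero]
  exact hw

/-- **Structure of the balls.** Without explosion, either all balls are finite, or an infinite
zero cluster is reached in an optimal way and before this time only finitely many vertices are
reached. -/
theorem ball_cases (hW : ∀ s, 0 ≤ W s) {x : Z d} (hb : ¬ Bad W x) :
    (∀ s, (Bs W x s).Finite) ∨ ∃ s0, (Us W x s0).Finite ∧
      ∃ v, v ∈ Bs W x s0 ∧ (Zc W v).Infinite := by
  by_cases hall : ∀ s, (Bs W x s).Finite
  · exact Or.inl hall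
  right
  push Not at hall
  obtain ⟨s', hs'⟩ := hall
  have hs'' : (Bs W x s').Infinite := hs'
  set S : Set ℝ := {s | (Bs W x s).Infinite} with hS
  have hne : S.Nonempty := ⟨s', hs''⟩
  have hbdd : BddBelow S := by
    refine ⟨0, fun s hs => ?_⟩
    by_contra hc
    push Not at hc
    have hs1 : (Bs W x s).Infinite := hs
    obtain ⟨v, w, hw⟩ := hs1.nonempty
    have := cost_nonneg hW w
    linarith
  set s0 := sInf S with hs0
  have hs00 : 0 ≤ s0 := by
    refine le_csInf hne fun s hs => ?_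
    by_contra hc
    push Not at hc
    have hs1 : (Bs W x s).Infinite := hs
    obtain ⟨v, w, hw⟩ := hs1.nonempty
    have := cost_nonneg hW w
    linarith
  have hlt : ∀ s < s0, (Bs W x s).Finite := by
    intro s hs
    by_contra hc
    exact absurd (csInf_le hbdd (show s ∈ S from hc)) (not_le.2 hs)
  have hgt : ∀ s, s0 < s → (Bs W x s).Infinite := by
    intro s hs
    obtain ⟨r, hr, hrs⟩ := (csInf_lt_iff hbdd hne).1 hs
    exact Set.Infinite.mono (Bs_mono x hrs.le) hr
  have hU : (Us W x s0).Finite := by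
    by_contra hc
    exact hb ⟨s0, hlt, hc⟩
  refine ⟨s0, hU, ?_⟩
  by_contra hno
  push Not at hno
  -- the closed ball is finite
  have hB : (Bs W x s0).Finite := by
    have hN : (({x} ∪ {v | ∃ u ∈ Us W x s0, Nb u v}) ∩ Bs W x s0).Finite :=
      ((Set.finite_singleton x).union (nbr_fin hU)).inter_of_left _
    have h1 : Bs W x s0 ⊆ Us W x s0 ∪
        ⋃ v' ∈ ({x} ∪ {v | ∃ u ∈ Us W x s0, Nb u v}) ∩ Bs W x s0, Zc W v' := by
      intro v hv
      rcases Bs_cover hW hv with h | ⟨v', hv', h⟩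
      · exact Or.inl h
      · right
        rw [mem_iUnion₂]
        exact ⟨v', hv', h⟩
    refine (hU.union (hN.biUnion fun v' hv' => ?_)).subset h1
    exact hno v' hv'.2
  obtain ⟨s1, g1, g2⟩ := Bs_gap hW hs00 hB
  exact hgt ((s0 + s1) / 2) (by linarith) (g2 ((s0 + s1) / 2) (by linarith))

/-- Minimal walks from a vertex whose balls are finite. -/
lemma min_of_balls (hW : ∀ s, 0 ≤ W s) {x : Z d} (h : ∀ s, (Bs W x s).Finite) (y : Z d) :
    ∃ w : (Lat d).Walk x y, ∀ w' : (Lat d).Walk x y, cost W w ≤ cost W w' := by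
  obtain ⟨w0⟩ := lat_reach x y
  exact min_of_fin hW (h (cost W w0)) ⟨w0, le_rfl⟩ fun w hw => ⟨w, InR_Bs hW w hw, le_rfl⟩

/-- **Minimal walks exist without explosion** if the infinite zero cluster is unique. -/
theorem min_of_no_bad (hW : ∀ s, 0 ≤ W s) (hb : ∀ x, ¬ Bad W x)
    (hu : ∀ u v : Z d, (Zc W u).Infinite → (Zc W v).Infinite → v ∈ Zc W u) (x y : Z d) :
    ∃ w : (Lat d).Walk x y, ∀ w' : (Lat d).Walk x y, cost W w ≤ cost W w' := by
  rcases ball_cases hW (hb x) with hx | ⟨sx, hUx, vx, ⟨px, hpx⟩, hZx⟩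
  · exact min_of_balls hW hx y
  rcases ball_cases hW (hb y) with hy | ⟨sy, hUy, vy, ⟨py, hpy⟩, hZy⟩
  · obtain ⟨w, hw⟩ := min_of_balls hW hy x
    refine ⟨w.reverse, fun w' => ?_⟩
    rw [cost_reverse, ← cost_reverse w']
    exact hw _
  obtain ⟨q, _, hq⟩ := cost_of_reach (W := W) (R := univ) (mem_univ vx) (hu vx vy hZx hZy)
  set w0 : (Lat d).Walk x y := (px.append q).append py.reverse with hw0
  have hw0c : cost W w0 ≤ sx + sy := by
    rw [hw0, cost_append, cost_append, hq, cost_reverse]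
    linarith
  have hfin : ((Us W x sx ∪ Us W y sy) ∪ {v | v ∈ w0.support}).Finite :=
    (hUx.union hUy).union (List.finite_toSet _)
  refine min_of_fin hW hfin ⟨w0, le_rfl⟩ fun w hw => ?_
  rcases le_or_gt (cost W w0) (cost W w) with h | h
  · exact ⟨w0, fun v hv => Or.inr hv, h⟩
  · refine ⟨w, fun v hv => Or.inl ?_, le_rfl⟩
    obtain ⟨p, r, hpr⟩ := split_at w hv
    have h1 : cost W w = cost W p + cost W r := by rw [hpr, cost_append]
    by_cases hp : cost W p < sx
    · exact Or.inl ⟨p, hp⟩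
    · refine Or.inr ⟨r.reverse, ?_⟩
      rw [cost_reverse]
      push Not at hp
      linarith

end

end Pool.Agent.Helper401_FP
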