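import Pool.Agent.Helper401_FP.Det

set_option autoImplicit false

open MeasureTheory Set

/-!
First-passage percolation on `Z^d`: lattice paths in the format of the frozen statement
(helper401).
-/

namespace Pool.Agent.Helper401_FP

open Pool.Agent.Y990.CB

noncomputable section

variable {d : ℕ}

/-- The sequence `p` of vertices follows the sequence `e` of edges. -/
def Follows {n : ℕ} (p : Fin (n + 1) → Fin d → ℤ) (e : Fin n → E d) : Prop :=
  ∀ i : Fin n,
    (p (Fin.castSucc i) = (e i).1 ∧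
      p (Fin.succ i) = (e i).1 + (Pi.single (e i).2 (1 : ℤ) : Fin d → ℤ)) ∨
    (p (Fin.succ i) = (e i).1 ∧
      p (Fin.castSucc i) = (e i).1 + (Pi.single (e i).2 (1 : ℤ) : Fin d → ℤ))

lemma fmt_of_walk (x : E d → ℝ) {a b : Z d} (w : (Lat d).Walk a b) :
    ∃ (n : ℕ) (p : Fin (n + 1) → Fin d → ℤ) (e : Fin n → E d),
      p 0 = a ∧ p (Fin.last n) = b ∧ Follows p e ∧ ∑ i, x (e i) = cost (wt x) w := by
  induction w with
  | nil =>
    rename_i a
    exact ⟨0, fun _ => a, fun i => i.elim0, rfl, rfl, fun i => i.elim0, by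
      rw [cost_nil]; simp⟩
  | cons h q ih =>
    rename_i a b c
    obtain ⟨n, p, e, h1, h2, h3, h4⟩ := ih
    obtain ⟨e0, he0⟩ := exists_ed (show Nb a b from h)
    refine ⟨n + 1, Fin.cons a p, Fin.cons e0 e, rfl, ?_, ?_, ?_⟩
    · rw [← Fin.succ_last, Fin.cons_succ]
      exact h2
    · intro i
      refine Fin.cases ?_ (fun j => ?_) i
      · rw [Fin.castSucc_zero, Fin.cons_zero, Fin.cons_succ, Fin.cons_zero, h1]
        unfold ed at he0
        rw [Sym2.eq_iff] at he0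
        rcases he0 with ⟨e1, e2⟩ | ⟨e1, e2⟩
        · left; exact ⟨e1.symm, e2.symm⟩
        · right; exact ⟨e1.symm, e2.symm⟩
      · rw [← Fin.succ_castSucc, Fin.cons_succ, Fin.cons_succ, Fin.cons_succ]
        exact h3 j
    · rw [Fin.sum_univ_succ, cost_cons, Fin.cons_zero, ← he0, wt_ed]
      simp only [Fin.cons_succ]
      rw [h4]

lemma walk_of_fmt (x : E d → ℝ) (n : ℕ) : ∀ (p : Fin (n + 1) → Fin d → ℤ) (e : Fin n → E d),
    Follows p e → ∃ w : (Lat d).Walk (p 0) (p (Fin.last n)), cost (wt x) w = ∑ i, x (e i) := by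
  induction n with
  | zero =>
    intro p e _
    exact ⟨SimpleGraph.Walk.nil, by simp [cost]⟩
  | succ n ih =>
    intro p e h
    obtain ⟨w, hw⟩ := ih (fun i => p i.succ) (fun i => e i.succ) (fun i => by
      have := h i.succ
      rw [← Fin.succ_castSucc] at this
      exact this)
    have h0 := h 0
    rw [Fin.castSucc_zero] at h0
    have hadj : (Lat d).Adj (p 0) (p (Fin.succ 0)) ∧ ed (e 0) = s(p 0, p (Fin.succ 0)) := by
      rcases h0 with ⟨h1, h2⟩ | ⟨h1, h2⟩
      · constructor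
        · rw [h1, h2]; exact Nb_single _ _
        · unfold ed; rw [h1, h2]
      · constructor
        · rw [h1, h2]; exact Nb_comm.1 (Nb_single _ _)
        · unfold ed; rw [h1, h2, Sym2.eq_swap]
    refine ⟨SimpleGraph.Walk.cons hadj.1 w, ?_⟩
    rw [cost_cons, hw, ← hadj.2, wt_ed, Fin.sum_univ_succ]

/-- Minimal walks give minimal lattice paths. -/
theorem fmt_min {x : E d → ℝ} (h : ∀ a b : Z d, ∃ w : (Lat d).Walk a b,
    ∀ w' : (Lat d).Walk a b, cost (wt x) w ≤ cost (wt x) w') (a b : Fin d → ℤ) :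
    ∃ (n : ℕ) (p : Fin (n + 1) → Fin d → ℤ) (e : Fin n → (Fin d → ℤ) × Fin d),
      p 0 = a ∧ p (Fin.last n) = b ∧ Follows p e ∧
      ∀ (m : ℕ) (q : Fin (m + 1) → Fin d → ℤ) (f : Fin m → (Fin d → ℤ) × Fin d),
        q 0 = a → q (Fin.last m) = b → Follows q f → ∑ i, x (e i) ≤ ∑ i, x (f i) := by
  obtain ⟨w, hw⟩ := h a b
  obtain ⟨n, p, e, h1, h2, h3, h4⟩ := fmt_of_walk x w
  refine ⟨n, p, e, h1, h2, h3, fun m q f g1 g2 g3 => ?_⟩
  obtain ⟨w', hw'⟩ := walk_of_fmt x m q f g3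
  subst g1 g2
  rw [h4, ← hw']
  exact hw w'

end

end Pool.Agent.Helper401_FP
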