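import Pool.Agent.Helper401_FP.Law
import Pool.Agent.Helper401_FP.Fmt

set_option autoImplicit false

open MeasureTheory Set ProbabilityTheory Filter
open scoped Topology

/-!
First-passage percolation on `Z^d`: minimal paths for laws with little mass near zero (helper401).
-/

namespace Pool.Agent.Helper401_FP

open Pool.Agent.Y990.CB
open Pool.Agent.Y990.OA (hol)
open Pool.Agent.W783.PC (pm DepOn Inc bern)

noncomputable section

variable {d : ℕ}

/-- The scales. -/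
def Ns (A : ℕ) : ℕ → ℕ
  | 0 => 2
  | j + 1 => (Ns A j + 2) ^ A

lemma Ns_ge (A : ℕ) (hA : 2 ≤ A) (j : ℕ) : 2 ≤ Ns A j := by
  induction j with
  | zero => exact le_rfl
  | succ j ih =>
    show 2 ≤ (Ns A j + 2) ^ A
    calc 2 ≤ (Ns A j + 2) := by omega
      _ = (Ns A j + 2) ^ 1 := (pow_one _).symm
      _ ≤ (Ns A j + 2) ^ A := Nat.pow_le_pow_right (by omega) (by omega)

lemma Ns_sq (A : ℕ) (hA : 2 ≤ A) (j : ℕ) : Ns A j ^ 2 ≤ Ns A (j + 1) := by
  show Ns A j ^ 2 ≤ (Ns A j + 2) ^ A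
  calc Ns A j ^ 2 ≤ (Ns A j + 2) ^ 2 := Nat.pow_le_pow_left (by omega) 2
    _ ≤ (Ns A j + 2) ^ A := Nat.pow_le_pow_right (by omega) hA

lemma Ns_lt (A : ℕ) (hA : 2 ≤ A) (j : ℕ) : Ns A j < Ns A (j + 1) := by
  have h1 := Ns_sq A hA j
  have h2 := Ns_ge A hA j
  nlinarith

lemma Ns_log (A : ℕ) (hA : 2 ≤ A) (j : ℕ) : Real.log (Ns A j) ≤ (2 * A : ℝ) ^ j := by
  induction j with
  | zero =>
    show Real.log ((2 : ℕ) : ℝ) ≤ _
    rw [pow_zero]
    have := Real.log_two_lt_d9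
    push_cast
    linarith
  | succ j ih =>
    have h2 := Ns_ge A hA j
    have h3 : Ns A (j + 1) ≤ Ns A j ^ (2 * A) := by
      show (Ns A j + 2) ^ A ≤ _
      rw [pow_mul]
      exact Nat.pow_le_pow_left (by nlinarith) A
    have h4 : ((Ns A (j + 1) : ℕ) : ℝ) ≤ (Ns A j : ℝ) ^ (2 * A) := by exact_mod_cast h3
    have h5 : (0 : ℝ) < Ns A (j + 1) := by
      have := Ns_ge A hA (j + 1)
      have h6 : 0 < Ns A (j + 1) := by omega
      exact_mod_cast h6
    calc Real.log (Ns A (j + 1)) ≤ Real.log ((Ns A j : ℝ) ^ (2 * A)) := Real.log_le_log h5 h4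
      _ = (2 * A : ℕ) * Real.log (Ns A j) := by rw [Real.log_pow]
      _ ≤ (2 * A : ℕ) * (2 * A : ℝ) ^ j := mul_le_mul_of_nonneg_left ih (by positivity)
      _ = (2 * A : ℝ) ^ (j + 1) := by rw [pow_succ]; push_cast; ring

lemma Ns_summable (A : ℕ) (hA : 2 ≤ A) {a : ℝ} (ha : 0 < a) :
    Summable (fun j => ((Ns A (j + 1) : ℕ) : ℝ) ^ (-a)) := by
  set x : ℕ → ℝ := fun j => ((Ns A (j + 1) : ℕ) : ℝ) ^ (-a) with hx
  have h1 : ∀ j, (1 : ℝ) < Ns A j := fun j => by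
    have := Ns_ge A hA j
    have : 1 < Ns A j := by omega
    exact_mod_cast this
  have hx0 : ∀ j, 0 ≤ x j := fun j => Real.rpow_nonneg (by linarith [h1 (j + 1)]) _
  have hx1 : x 0 < 1 := Real.rpow_lt_one_of_one_lt_of_neg (h1 1) (by linarith)
  have hsq : ∀ j, x (j + 1) ≤ x j * x j := by
    intro j
    have h2 : ((Ns A (j + 1) : ℕ) : ℝ) ^ 2 ≤ ((Ns A (j + 2) : ℕ) : ℝ) := by
      exact_mod_cast Ns_sq A hA (j + 1)
    have h3 : (0 : ℝ) < Ns A (j + 1) := by linarith [h1 (j + 1)]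
    calc x (j + 1) = ((Ns A (j + 2) : ℕ) : ℝ) ^ (-a) := rfl
      _ ≤ (((Ns A (j + 1) : ℕ) : ℝ) ^ 2) ^ (-a) :=
          Real.rpow_le_rpow_of_nonpos (by positivity) h2 (by linarith)
      _ = x j * x j := by
          rw [hx]
          simp only
          rw [← Real.rpow_natCast, ← Real.rpow_mul h3.le, ← Real.rpow_add h3]
          congr 1
          push_cast
          ring
  have hle : ∀ j, x j ≤ x 0 := by
    intro j
    induction j with
    | zero => exact le_rfl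
    | succ j ih =>
      calc x (j + 1) ≤ x j * x j := hsq j
        _ ≤ x 0 * 1 := mul_le_mul ih (ih.trans hx1.le) (hx0 j) (hx0 0)
        _ = x 0 := mul_one _
  have hgeo : ∀ j, x j ≤ x 0 ^ (j + 1) := by
    intro j
    induction j with
    | zero => simp
    | succ j ih =>
      calc x (j + 1) ≤ x j * x j := hsq j
        _ ≤ x 0 ^ (j + 1) * x 0 := mul_le_mul ih (hle j) (hx0 j) (by positivity)
        _ = x 0 ^ (j + 1 + 1) := (pow_succ _ _).symm
  refine Summable.of_nonneg_of_le hx0 hgeo ?_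
  exact (summable_nat_add_iff 1).2 (summable_geometric_of_lt_one (hx0 0) hx1)

/-- Uniqueness of the crossing clusters at polynomial scales. -/
theorem two_arm (hd : 3 ≤ d) : ∃ A : ℕ, 2 ≤ A ∧ ∀ p : unitInterval, pc (bondM d) ≤ p →
    ∀ k n : ℕ, (k + 2) ^ A ≤ n →
      (mu (bondM d) p).real (Ta (bondM d) 0 k n) ≤ 8 * (n : ℝ) ^ (-(1 / 50 : ℝ)) := by
  obtain ⟨A, c, C, hA, hc, hC, h, -⟩ :=
    Pool.Agent.Y990.OA.main6 hd (bondM d) nd_bond (Pool.Agent.Y448.CB2.qm_bond d)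
  refine ⟨max A 2, le_max_right _ _, fun p hp k n hn => ?_⟩
  have hn' : (k + 2) ^ A ≤ n := le_trans (Nat.pow_le_pow_right (by omega) (le_max_left _ _)) hn
  have h1 := (h k n hn').2.1 p hp 0 le_rfl zero_le_one
  have hn1 : 1 ≤ n := le_trans (Nat.one_le_pow _ _ (by omega)) hn'
  have hnR : (1 : ℝ) ≤ n := by exact_mod_cast hn1
  have h2 : ((n : ℝ))⁻¹ ≤ 1 := inv_le_one_of_one_le₀ hnR
  have h3 : hol (bondM d) p k n ≤ 1 := by
    unfold hol
    exact measureReal_le_one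
  have h4 : 0 ≤ (n : ℝ) ^ (-(1 / 50 : ℝ)) := Real.rpow_nonneg (by linarith) _
  have e1 : (-((1 - 0) / 50) : ℝ) = -(1 / 50 : ℝ) := by norm_num
  rw [e1, mul_zero, Real.rpow_zero, mul_one] at h1
  calc _ ≤ 4 * (n : ℝ) ^ (-(1 / 50 : ℝ)) * ((n : ℝ)⁻¹ + hol (bondM d) p k n) := h1
    _ ≤ 4 * (n : ℝ) ^ (-(1 / 50 : ℝ)) * 2 := by
        refine mul_le_mul_of_nonneg_left (by linarith) (by positivity)
    _ = _ := by ring

variable {Ω : Type} [MeasurableSpace Ω] {P : Measure Ω} [IsProbabilityMeasure P]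
  {X : E d → Ω → ℝ} {μ : Measure ℝ}

/-- The edges whose base point is in the box. -/
def Eb (d N : ℕ) : Finset (E d) := (Bf (0 : Z d) N) ×ˢ (Finset.univ : Finset (Fin d))

lemma card_Eb (d N : ℕ) : (Eb d N).card = (2 * N + 1) ^ d * d := by
  unfold Eb
  rw [Finset.card_product, card_Bf, Finset.card_univ, Fintype.card_fin]

/-- Minimal paths exist for laws with little mass near zero. -/
theorem crit (hd : 3 ≤ d) : ∃ κ : ℝ, 1 < κ ∧ ∀ (μ : Measure ℝ) [IsProbabilityMeasure μ]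
    (p : unitInterval), μ (Iio 0) = 0 → μ {0} = ENNReal.ofReal p → pc (bondM d) ≤ p →
    ∀ t : ℕ → ℝ, (∀ j, 0 ≤ t j) → ¬ Summable t →
    (∀ j, μ (Ioc 0 (t j)) ≤ ENNReal.ofReal (Real.exp (-(κ ^ (j + 1))))) →
    ∀ (Ω : Type) [MeasurableSpace Ω] (P : Measure Ω) [IsProbabilityMeasure P]
      (X : E d → Ω → ℝ), (∀ e, Measurable (X e)) → iIndepFun X P →
      (∀ e, Measure.map (X e) P = μ) →
      ∀ᵐ ω ∂P, ∀ x y : Z d, ∃ w : (Lat d).Walk x y, ∀ w' : (Lat d).Walk x y,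
        cost (wt fun e => X e ω) w ≤ cost (wt fun e => X e ω) w' := by
  obtain ⟨A, hA2, hA⟩ := two_arm hd
  have hA0 : (2 : ℝ) ≤ A := by exact_mod_cast hA2
  have hd0 : (3 : ℝ) ≤ d := by exact_mod_cast hd
  refine ⟨(d + 2) * (2 * A), by nlinarith, ?_⟩
  intro μ _ p hneg hp0 hpc t ht hts htμ Ω _ P _ X hX hi hμ
  set N := Ns A with hN
  have hNge : ∀ j, 2 ≤ N j := Ns_ge A hA2
  have hNR : ∀ j, (2 : ℝ) ≤ N j := fun j => by exact_mod_cast hNge j
  -- the weights are nonnegative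
  have hnn : ∀ᵐ ω ∂P, ∀ e, 0 ≤ X e ω := by
    rw [ae_all_iff]
    intro e
    have h1 : P {ω | X e ω ∈ Iio (0 : ℝ)} = 0 := by
      have := Measure.map_apply (hX e) (measurableSet_Iio (a := (0 : ℝ))) (μ := P)
      rw [hμ e, hneg] at this
      exact this.symm
    rw [ae_iff]
    convert h1 using 2
    ext ω
    simp
  -- two crossing clusters
  have hU : ∀ᵐ ω ∂P, ∀ᶠ j in atTop,
      ω ∉ {ω | zc (wt fun e => X e ω) ∈ Ta (bondM d) 0 (N j) (N (j + 1))} := by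
    refine ae_eventually_notMem ?_
    have h1 : ∀ j, P {ω | zc (wt fun e => X e ω) ∈ Ta (bondM d) 0 (N j) (N (j + 1))} ≤
        ENNReal.ofReal (8 * ((N (j + 1) : ℕ) : ℝ) ^ (-(1 / 50 : ℝ))) := by
      intro j
      have h2 := law_zc hX hi hμ p hp0 (Ta_meas (bondM d) 0 (N j) (N (j + 1)))
        (dep_mono (Ta_dep (bondM d) 0 (N j) (N (j + 1))) (In_sub_Ed _))
      refine h2.le.trans ?_
      rw [← ENNReal.ofReal_toReal (measure_ne_top (mu (bondM d) p) _)]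
      exact ENNReal.ofReal_le_ofReal (hA p hpc (N j) (N (j + 1)) le_rfl)
    refine ne_of_lt (lt_of_le_of_lt (ENNReal.tsum_le_tsum h1) ?_)
    rw [← ENNReal.ofReal_tsum_of_nonneg (fun j => by positivity)
      ((Ns_summable A hA2 (by norm_num)).mul_left 8)]
    exact ENNReal.ofReal_lt_top
  -- light edges
  have hV : ∀ᵐ ω ∂P, ∀ᶠ j in atTop,
      ω ∉ {ω | ∃ e ∈ Eb d (N (j + 1)), X e ω ∈ Ioc (0 : ℝ) (t j)} := by
    refine ae_eventually_notMem ?_
    have h1 : ∀ j, P {ω | ∃ e ∈ Eb d (N (j + 1)), X e ω ∈ Ioc (0 : ℝ) (t j)} ≤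
        ENNReal.ofReal (d * 3 ^ d * ((N (j + 1) : ℕ) : ℝ) ^ (-(2 : ℝ))) := by
      intro j
      have h2 : {ω | ∃ e ∈ Eb d (N (j + 1)), X e ω ∈ Ioc (0 : ℝ) (t j)} =
          ⋃ e ∈ Eb d (N (j + 1)), {ω | X e ω ∈ Ioc (0 : ℝ) (t j)} := by
        ext ω
        simp only [mem_iUnion, mem_ofPred_eq, exists_prop]
      have h3 : ∀ e, P {ω | X e ω ∈ Ioc (0 : ℝ) (t j)} ≤
          ENNReal.ofReal (Real.exp (-(((d + 2) * (2 * A) : ℝ) ^ (j + 1)))) := by
        intro e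
        have := Measure.map_apply (hX e) (measurableSet_Ioc (a := (0 : ℝ)) (b := t j)) (μ := P)
        rw [hμ e] at this
        change P (X e ⁻¹' Ioc 0 (t j)) ≤ _
        rw [← this]
        exact htμ j
      have h4 : P {ω | ∃ e ∈ Eb d (N (j + 1)), X e ω ∈ Ioc (0 : ℝ) (t j)} ≤
          (Eb d (N (j + 1))).card *
            ENNReal.ofReal (Real.exp (-(((d + 2) * (2 * A) : ℝ) ^ (j + 1)))) := by
        rw [h2]
        refine (measure_biUnion_finset_le _ _).trans ?_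
        refine (Finset.sum_le_sum fun e _ => h3 e).trans ?_
        rw [Finset.sum_const, nsmul_eq_mul]
      refine h4.trans ?_
      rw [← ENNReal.ofReal_natCast, ← ENNReal.ofReal_mul (by positivity)]
      refine ENNReal.ofReal_le_ofReal ?_
      rw [card_Eb]
      set n : ℝ := ((N (j + 1) : ℕ) : ℝ) with hn
      have hn2 : 2 ≤ n := hNR (j + 1)
      have hn0 : 0 < n := by linarith
      have e1 : Real.exp (-(((d + 2) * (2 * A) : ℝ) ^ (j + 1))) ≤ n ^ (-((d : ℝ) + 2)) := by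
        rw [Real.rpow_def_of_pos hn0]
        refine Real.exp_le_exp.2 ?_
        have h5 : Real.log n ≤ (2 * A : ℝ) ^ (j + 1) := Ns_log A hA2 (j + 1)
        have h6 : ((d : ℝ) + 2) ≤ ((d : ℝ) + 2) ^ (j + 1) :=
          le_self_pow₀ (by linarith) (by omega)
        have h7 : Real.log n * ((d : ℝ) + 2) ≤ ((d + 2) * (2 * A) : ℝ) ^ (j + 1) := by
          rw [mul_pow, mul_comm]
          exact mul_le_mul h6 h5 (Real.log_nonneg (by linarith)) (by positivity)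
        linarith
      have e2 : n ^ (-((d : ℝ) + 2)) = n ^ (-(d : ℝ)) * n ^ (-(2 : ℝ)) := by
        rw [← Real.rpow_add hn0]
        congr 1
        ring
      have e3 : (2 * n + 1) ^ d * n ^ (-(d : ℝ)) ≤ 3 ^ d := by
        have h8 : (2 * n + 1) ^ d ≤ (3 * n) ^ d := pow_le_pow_left₀ (by linarith) (by linarith) d
        have h9 : n ^ (-(d : ℝ)) = (n ^ d)⁻¹ := by
          rw [Real.rpow_neg hn0.le, Real.rpow_natCast]
        rw [h9]
        calc (2 * n + 1) ^ d * (n ^ d)⁻¹ ≤ (3 * n) ^ d * (n ^ d)⁻¹ :=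
              mul_le_mul_of_nonneg_right h8 (by positivity)
          _ = 3 ^ d := by
              rw [mul_pow, mul_assoc, mul_inv_cancel₀ (by positivity), mul_one]
      have e4 : (0 : ℝ) ≤ n ^ (-(2 : ℝ)) := Real.rpow_nonneg hn0.le _
      have e5 : (0 : ℝ) ≤ d := by positivity
      calc (((2 * N (j + 1) + 1) ^ d * d : ℕ) : ℝ) *
            Real.exp (-(((d + 2) * (2 * A) : ℝ) ^ (j + 1)))
          ≤ (((2 * N (j + 1) + 1) ^ d * d : ℕ) : ℝ) * n ^ (-((d : ℝ) + 2)) :=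
            mul_le_mul_of_nonneg_left e1 (by positivity)
        _ = d * ((2 * n + 1) ^ d * n ^ (-(d : ℝ))) * n ^ (-(2 : ℝ)) := by
            rw [e2, hn]; push_cast; ring
        _ ≤ d * 3 ^ d * n ^ (-(2 : ℝ)) :=
            mul_le_mul_of_nonneg_right (mul_le_mul_of_nonneg_left e3 e5) e4
    refine ne_of_lt (lt_of_le_of_lt (ENNReal.tsum_le_tsum h1) ?_)
    have hsum : Summable (fun j => (d * 3 ^ d : ℝ) * ((N (j + 1) : ℕ) : ℝ) ^ (-(2 : ℝ))) :=
      (Ns_summable A hA2 (by norm_num : (0 : ℝ) < 2)).mul_left _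
    rw [← ENNReal.ofReal_tsum_of_nonneg (fun j => by positivity) hsum]
    exact ENNReal.ofReal_lt_top
  filter_upwards [hnn, hU, hV] with ω h0 h1 h2 x y
  obtain ⟨j1, hj1⟩ := eventually_atTop.1 h1
  obtain ⟨j2, hj2⟩ := eventually_atTop.1 h2
  refine min_exists (wt_nonneg h0) N (Ns_lt A hA2) t ht hts (max j1 j2)
    (fun j hj => hj1 j (le_trans (le_max_left _ _) hj)) ?_ x y
  intro j hj a ha b hb hab
  obtain ⟨e, he⟩ := exists_ed hab
  rw [← he, wt_ed]
  have hmem : e ∈ Eb d (N (j + 1)) := by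
    unfold Eb
    rw [Finset.mem_product]
    refine ⟨?_, Finset.mem_univ _⟩
    rw [mem_Bf]
    have h3 : e.1 ∈ s(a, b) := by
      rw [← he]
      exact Sym2.mem_mk_left _ _
    rw [Sym2.mem_iff] at h3
    rcases h3 with h3 | h3
    · rw [h3]; exact ha
    · rw [h3]; exact hb
  have h4 := hj2 j (le_trans (le_max_right _ _) hj)
  by_contra hc
  push Not at hc
  apply h4
  exact ⟨e, hmem, lt_of_le_of_ne (h0 e) (Ne.symm hc.1), hc.2.le⟩

end

end Pool.Agent.Helper401_FP
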