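import Pool.Agent.Y990.OA.Main6
import Pool.Agent.Y448.CB2.Ctc

set_option autoImplicit false

open MeasureTheory Set

/-!
First-passage percolation on `Z^d`: deterministic part (helper401).
-/

namespace Pool.Agent.Helper401_FP

open Pool.Agent.Y990.CB

noncomputable section

variable {d : ℕ}

/-- Edges of the lattice: `(v, i)` is the edge from `v` to `v + e_i`. -/
abbrev E (d : ℕ) : Type := (Fin d → ℤ) × Fin d

/-- The unordered pair of the end points. -/
def ed (e : E d) : Sym2 (Z d) := s(e.1, e.1 + Pi.single e.2 (1 : ℤ))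

lemma single_ne (i j : Fin d) (a : ℤ) (ha : 0 < a) :
    (Pi.single i (1 : ℤ) : Z d) + Pi.single j a ≠ 0 := by
  intro h
  have h1 := congrFun h j
  simp only [Pi.add_apply, Pi.single_eq_same, Pi.zero_apply] at h1
  by_cases hij : j = i
  · subst hij
    rw [Pi.single_eq_same] at h1
    omega
  · rw [Pi.single_eq_of_ne hij] at h1
    omega

lemma ed_inj : Function.Injective (ed (d := d)) := by
  rintro ⟨v, i⟩ ⟨w, j⟩ h
  unfold ed at h
  rw [Sym2.eq_iff] at h
  rcases h with ⟨h1, h2⟩ | ⟨h1, h2⟩
  · simp only at h1 h2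
    subst h1
    have h3 : (Pi.single i (1 : ℤ) : Z d) = Pi.single j 1 := add_left_cancel h2
    have h4 := congrFun h3 i
    rw [Pi.single_eq_same] at h4
    by_cases hij : i = j
    · rw [hij]
    · rw [Pi.single_eq_of_ne hij] at h4
      omega
  · exfalso
    simp only at h1 h2
    rw [h1] at h2
    have h3 : (Pi.single j (1 : ℤ) : Z d) + Pi.single i 1 = 0 := by
      have : w + ((Pi.single j (1 : ℤ) : Z d) + Pi.single i 1) = w + 0 := by
        rw [add_zero, ← add_assoc]; exact h2
      exact add_left_cancel this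
    exact single_ne j i 1 one_pos h3

lemma Nb_single (v : Z d) (i : Fin d) : Nb v (v + Pi.single i (1 : ℤ)) := by
  unfold Nb
  have h : ∀ j : Fin d, |v j - (v + (Pi.single i (1 : ℤ) : Z d)) j| = if j = i then 1 else 0 := by
    intro j
    by_cases hj : j = i
    · subst hj
      simp
    · simp [hj]
  rw [Finset.sum_congr rfl (fun j _ => h j)]
  simp

lemma Nb_cases {x y : Z d} (h : Nb x y) :
    ∃ i, y = x + Pi.single i (1 : ℤ) ∨ x = y + Pi.single i (1 : ℤ) := by
  unfold Nb at h
  have h1 : ∃ i, |x i - y i| ≠ 0 := by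
    by_contra hc
    push Not at hc
    rw [Finset.sum_eq_zero (fun i _ => hc i)] at h
    omega
  obtain ⟨i, hi⟩ := h1
  have hi1 : 1 ≤ |x i - y i| := by
    have := abs_nonneg (x i - y i)
    omega
  have h2 : ∀ j, j ≠ i → |x j - y j| = 0 := by
    intro j hj
    have h3 : |x i - y i| + |x j - y j| ≤ ∑ k, |x k - y k| := by
      have h4 := Finset.add_sum_erase Finset.univ (fun k => |x k - y k|) (Finset.mem_univ i)
      have h5 : |x j - y j| ≤ ∑ k ∈ Finset.univ.erase i, |x k - y k| :=
        Finset.single_le_sum (f := fun k => |x k - y k|) (fun k _ => abs_nonneg _)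
          (Finset.mem_erase.2 ⟨hj, Finset.mem_univ j⟩)
      linarith
    have := abs_nonneg (x j - y j)
    omega
  have h3 : |x i - y i| = 1 := by
    have h4 : |x i - y i| ≤ ∑ k, |x k - y k| :=
      Finset.single_le_sum (f := fun k => |x k - y k|) (fun k _ => abs_nonneg _)
        (Finset.mem_univ i)
    omega
  refine ⟨i, ?_⟩
  have h4 : ∀ j, j ≠ i → x j = y j := fun j hj => by
    have := abs_eq_zero.1 (h2 j hj)
    omega
  rcases (abs_eq (by norm_num : (0 : ℤ) ≤ 1)).1 h3 with h5 | h5
  · right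
    ext j
    by_cases hj : j = i
    · subst hj
      simp only [Pi.add_apply, Pi.single_eq_same]
      omega
    · simp only [Pi.add_apply, Pi.single_eq_of_ne hj, add_zero]
      exact h4 j hj
  · left
    ext j
    by_cases hj : j = i
    · subst hj
      simp only [Pi.add_apply, Pi.single_eq_same]
      omega
    · simp only [Pi.add_apply, Pi.single_eq_of_ne hj, add_zero]
      exact (h4 j hj).symm

/-- The lattice as a graph. -/
def Lat (d : ℕ) : SimpleGraph (Z d) where
  Adj x y := Nb x y
  symm := ⟨fun _ _ h => Nb_comm.1 h⟩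
  loopless := ⟨fun x h => Nb_ne h rfl⟩

lemma exists_ed {x y : Z d} (h : Nb x y) : ∃ e : E d, ed e = s(x, y) := by
  obtain ⟨i, h | h⟩ := Nb_cases h
  · exact ⟨(x, i), by unfold ed; rw [h]⟩
  · exact ⟨(y, i), by unfold ed; rw [Sym2.eq_swap, ← h]⟩

open scoped Classical in
/-- Weights of unordered pairs. -/
def wt (x : E d → ℝ) (s : Sym2 (Z d)) : ℝ := if h : ∃ e, ed e = s then x h.choose else 1

lemma wt_ed (x : E d → ℝ) (e : E d) : wt x (ed e) = x e := by
  unfold wt
  have h : ∃ e', ed e' = ed e := ⟨e, rfl⟩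
  rw [dif_pos h]
  exact congrArg x (ed_inj h.choose_spec)

lemma wt_nonneg {x : E d → ℝ} (hx : ∀ e, 0 ≤ x e) (s : Sym2 (Z d)) : 0 ≤ wt x s := by
  unfold wt
  split_ifs with h
  · exact hx _
  · exact zero_le_one

/-- The cost of a walk. -/
def cost (W : Sym2 (Z d) → ℝ) {a b : Z d} (p : (Lat d).Walk a b) : ℝ := (p.edges.map W).sum

variable {W : Sym2 (Z d) → ℝ}

lemma cost_nil (a : Z d) : cost W (SimpleGraph.Walk.nil : (Lat d).Walk a a) = 0 := rfl

lemma cost_cons {a b c : Z d} (h : (Lat d).Adj a b) (p : (Lat d).Walk b c) :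
    cost W (SimpleGraph.Walk.cons h p) = W s(a, b) + cost W p := by
  simp [cost]

lemma cost_append {a b c : Z d} (p : (Lat d).Walk a b) (q : (Lat d).Walk b c) :
    cost W (p.append q) = cost W p + cost W q := by
  simp [cost, SimpleGraph.Walk.edges_append]

lemma cost_reverse {a b : Z d} (p : (Lat d).Walk a b) : cost W p.reverse = cost W p := by
  simp [cost, SimpleGraph.Walk.edges_reverse, List.map_reverse, List.sum_reverse]

lemma cost_nonneg (hW : ∀ s, 0 ≤ W s) {a b : Z d} (p : (Lat d).Walk a b) : 0 ≤ cost W p := by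
  refine List.sum_nonneg fun x hx => ?_
  obtain ⟨s, _, rfl⟩ := List.mem_map.1 hx
  exact hW s

/-- A walk stays in a set. -/
def InR {a b : Z d} (p : (Lat d).Walk a b) (R : Set (Z d)) : Prop := ∀ v ∈ p.support, v ∈ R

lemma InR_append {a b c : Z d} {p : (Lat d).Walk a b} {q : (Lat d).Walk b c} {R : Set (Z d)}
    (hp : InR p R) (hq : InR q R) : InR (p.append q) R := by
  intro v hv
  rw [SimpleGraph.Walk.mem_support_append_iff] at hv
  rcases hv with hv | hv
  · exact hp v hv
  · exact hq v hv

lemma InR_reverse {a b : Z d} {p : (Lat d).Walk a b} {R : Set (Z d)} (hp : InR p R) :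
    InR p.reverse R := by
  intro v hv
  rw [SimpleGraph.Walk.support_reverse, List.mem_reverse] at hv
  exact hp v hv

lemma InR_mono {a b : Z d} {p : (Lat d).Walk a b} {R R' : Set (Z d)} (h : R ⊆ R')
    (hp : InR p R) : InR p R' := fun v hv => h (hp v hv)

lemma lat_reach (x y : Z d) : (Lat d).Reachable x y := by
  have step : ∀ (i : Fin d) (v : Z d) (n : ℕ),
      (Lat d).Reachable v (v + Pi.single i (n : ℤ)) := by
    intro i v n
    induction n with
    | zero => simp
    | succ n ih =>
      refine ih.trans ?_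
      have h1 : (Lat d).Adj (v + Pi.single i (n : ℤ))
          (v + Pi.single i (n : ℤ) + Pi.single i (1 : ℤ)) := Nb_single _ _
      have h2 : v + Pi.single i (((n + 1 : ℕ) : ℤ)) =
          v + Pi.single i (n : ℤ) + Pi.single i (1 : ℤ) := by
        rw [add_assoc, ← Pi.single_add]
        push_cast
        rfl
      rw [h2]
      exact h1.reachable
  have stepz : ∀ (i : Fin d) (v : Z d) (n : ℤ), (Lat d).Reachable v (v + Pi.single i n) := by
    intro i v n
    rcases Int.eq_nat_or_neg n with ⟨m, rfl | rfl⟩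
    · exact step i v m
    · have h := step i (v + Pi.single i (-(m : ℤ))) m
      have e : v + Pi.single i (-(m : ℤ)) + Pi.single i (m : ℤ) = v := by
        rw [add_assoc, ← Pi.single_add]
        simp
      rw [e] at h
      exact h.symm
  have key : ∀ (s : Finset (Fin d)) (v : Z d),
      (Lat d).Reachable v (v + ∑ i ∈ s, Pi.single i ((y - x) i)) := by
    intro s
    induction s using Finset.induction_on with
    | empty => intro v; simp
    | insert i s hi ih =>
      intro v
      rw [Finset.sum_insert hi, ← add_assoc]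
      exact (stepz i v _).trans (ih _)
  have h := key Finset.univ x
  have e : x + ∑ i : Fin d, (Pi.single i ((y - x) i) : Z d) = y := by
    rw [Finset.univ_sum_single]
    simp
  rwa [e] at h

/-- Minimal walks exist if it is enough to consider walks in a finite set. -/
theorem min_of_fin (hW : ∀ s, 0 ≤ W s) {x y : Z d} {R : Set (Z d)} (hR : R.Finite) {K : ℝ}
    (hK : ∃ w : (Lat d).Walk x y, cost W w ≤ K)
    (h : ∀ w : (Lat d).Walk x y, cost W w ≤ K → ∃ w' : (Lat d).Walk x y, InR w' R ∧
      cost W w' ≤ cost W w) :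
    ∃ w : (Lat d).Walk x y, ∀ w' : (Lat d).Walk x y, cost W w ≤ cost W w' := by
  classical
  set S : Set ℝ := {c | ∃ p : (Lat d).Walk x y, p.IsPath ∧ InR p R ∧ cost W p = c} with hS
  have hedge : (Set.image (fun q : Z d × Z d => s(q.1, q.2)) (R ×ˢ R)).Finite :=
    (hR.prod hR).image _
  have hfin : S.Finite := by
    refine (((hedge.toFinset.powerset : Finset (Finset (Sym2 (Z d)))).image
      (fun F => ∑ s ∈ F, W s)).finite_toSet).subset ?_
    rintro c ⟨p, hp, hpR, rfl⟩
    rw [Finset.mem_coe, Finset.mem_image]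
    refine ⟨p.edges.toFinset, ?_, ?_⟩
    · rw [Finset.mem_powerset]
      intro s hs
      rw [List.mem_toFinset] at hs
      rw [Set.Finite.mem_toFinset]
      induction s using Sym2.inductionOn with
      | hf a b =>
        exact ⟨(a, b), ⟨hpR a (p.fst_mem_support_of_mem_edges hs),
          hpR b (p.snd_mem_support_of_mem_edges hs)⟩, rfl⟩
    · rw [List.sum_toFinset _ hp.isTrail.edges_nodup]
      rfl
  have hby : ∀ w : (Lat d).Walk x y, InR w R → ∃ c ∈ S, c ≤ cost W w := by
    intro w hw
    refine ⟨cost W w.bypass, ⟨w.bypass, w.bypass_isPath, fun v hv =>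
      hw v (w.support_bypass_subset_support hv), rfl⟩, ?_⟩
    -- compare sums through nonnegativity
    have h2 : w.bypass.edges ⊆ w.edges := w.edges_bypass_subset_edges
    have h3 : w.bypass.edges.Nodup := w.bypass_isPath.isTrail.edges_nodup
    unfold cost
    rw [← List.sum_toFinset W h3]
    calc ∑ s ∈ w.bypass.edges.toFinset, W s ≤ ∑ s ∈ w.edges.toFinset, W s :=
          Finset.sum_le_sum_of_subset_of_nonneg (fun s hs => by
            rw [List.mem_toFinset] at hs ⊢; exact h2 hs) (fun s _ _ => hW s)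
      _ ≤ (w.edges.map W).sum := by
          generalize w.edges = l
          induction l with
          | nil => simp
          | cons a l ih =>
            rw [List.toFinset_cons, List.map_cons, List.sum_cons]
            by_cases ha : a ∈ l.toFinset
            · rw [Finset.insert_eq_of_mem ha]
              linarith [hW a]
            · rw [Finset.sum_insert ha]
              linarith
  obtain ⟨w0, hw0⟩ := hK
  obtain ⟨w1, hw1, hw1c⟩ := h w0 hw0
  obtain ⟨c1, hc1, hc1w⟩ := hby w1 hw1
  obtain ⟨c, hcS, hle⟩ := Set.exists_min_image S id hfin ⟨c1, hc1⟩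
  simp only [id] at hle
  obtain ⟨p, hp, hpR, rfl⟩ := hcS
  refine ⟨p, fun w => ?_⟩
  by_cases hw : cost W w ≤ K
  · obtain ⟨w', hw', hwc⟩ := h w hw
    obtain ⟨c', hc', hcw⟩ := hby w' hw'
    exact (hle c' hc').trans (hcw.trans hwc)
  · have := hle c1 hc1
    push Not at hw
    linarith

/-- Exit of a walk from a box. -/
lemma exit_walk {x u : Z d} (p : (Lat d).Walk x u) {n : ℕ} (hx : x ∈ Bo (0 : Z d) n)
    (hu : u ∉ Bo (0 : Z d) n) :
    ∃ (u' : Z d) (p1 : (Lat d).Walk x u') (p2 : (Lat d).Walk u' u), u' ∈ Fr (0 : Z d) n ∧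
      p = p1.append p2 ∧ InR p1 (Bo (0 : Z d) n) := by
  induction p with
  | nil => exact absurd hx hu
  | cons h q ih =>
    rename_i a b c
    by_cases hb : b ∈ Bo (0 : Z d) n
    · obtain ⟨u', p1, p2, h1, h2, h3⟩ := ih hb hu
      refine ⟨u', SimpleGraph.Walk.cons h p1, p2, h1, by rw [h2]; rfl, ?_⟩
      intro v hv
      rw [SimpleGraph.Walk.support_cons, List.mem_cons] at hv
      rcases hv with rfl | hv
      · exact hx
      · exact h3 v hv
    · refine ⟨a, SimpleGraph.Walk.nil, SimpleGraph.Walk.cons h q, ⟨hx, ?_⟩, rfl, ?_⟩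
      · have hb' : ∃ i, (n : ℤ) < |b i - (0 : Z d) i| := by
          by_contra hc
          push Not at hc
          exact hb hc
        obtain ⟨i, hi⟩ := hb'
        refine ⟨i, le_antisymm (hx i) ?_⟩
        have h1 := Nb_coord (show Nb a b from h) i
        have h2 : |b i - (0 : Z d) i| ≤ |a i - b i| + |a i - (0 : Z d) i| := by
          have := abs_sub_le (b i) (a i) ((0 : Z d) i)
          rwa [abs_sub_comm (b i) (a i)] at this
        omega
      · intro v hv
        rw [SimpleGraph.Walk.support_nil, List.mem_singleton] at hv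
        rw [hv]
        exact hx

/-- The configuration of the edges of weight zero. -/
def zc (W : Sym2 (Z d) → ℝ) : Sym2 (Z d) → Bool := fun s => decide (W s = 0)

lemma adj_zc {R : Set (Z d)} {a b : Z d} :
    (G (bondM d) (zc W) R).Adj a b ↔ Nb a b ∧ a ∈ R ∧ b ∈ R ∧ W s(a, b) = 0 := by
  constructor
  · rintro ⟨h1, h2, h3, h4⟩
    have h5 := h4 s(a, b) (Finset.mem_singleton_self _)
    exact ⟨h1, h2, h3, of_decide_eq_true h5⟩
  · rintro ⟨h1, h2, h3, h4⟩
    refine ⟨h1, h2, h3, fun c hc => ?_⟩
    have : c = s(a, b) := Finset.mem_singleton.1 hc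
    subst this
    exact decide_eq_true h4

/-- A walk of cost zero inside `R`. -/
lemma reach_of_cost {R : Set (Z d)} {a b : Z d} (hW : ∀ s, 0 ≤ W s) (p : (Lat d).Walk a b)
    (hp : InR p R) (hc : cost W p = 0) : (G (bondM d) (zc W) R).Reachable a b := by
  induction p with
  | nil => exact SimpleGraph.Reachable.refl _
  | cons h q ih =>
    rename_i a b c
    rw [cost_cons] at hc
    have h1 := hW s(a, b)
    have h2 := cost_nonneg hW q
    have hq : InR q R := fun v hv => hp v (by
      rw [SimpleGraph.Walk.support_cons]; exact List.mem_cons_of_mem _ hv)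
    have ha : a ∈ R := hp a (SimpleGraph.Walk.start_mem_support _)
    have hb : b ∈ R := hq b (SimpleGraph.Walk.start_mem_support _)
    exact (SimpleGraph.Adj.reachable (adj_zc.2 ⟨h, ha, hb, by linarith⟩)).trans
      (ih hq (by linarith))

lemma cost_of_reach {R : Set (Z d)} {a b : Z d} (ha : a ∈ R)
    (h : (G (bondM d) (zc W) R).Reachable a b) :
    ∃ p : (Lat d).Walk a b, InR p R ∧ cost W p = 0 := by
  obtain ⟨p⟩ := h
  induction p with
  | nil =>
    exact ⟨SimpleGraph.Walk.nil, fun v hv => by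
      rw [SimpleGraph.Walk.support_nil, List.mem_singleton] at hv
      rw [hv]; exact ha, rfl⟩
  | cons h q ih =>
    rename_i a b c
    obtain ⟨h1', h2, h3, h4⟩ := adj_zc.1 h
    have h1 : (Lat d).Adj a b := h1'
    obtain ⟨p, hp, hc⟩ := ih h3
    refine ⟨SimpleGraph.Walk.cons h1 p, ?_, ?_⟩
    · intro v hv
      rw [SimpleGraph.Walk.support_cons, List.mem_cons] at hv
      rcases hv with rfl | hv
      · exact h2
      · exact hp v hv
    · rw [cost_cons, h4, hc, add_zero]

/-- A walk inside a region without light edges costs nothing or at least `t`. -/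
lemma cost_gap {R : Set (Z d)} {t : ℝ} (hW : ∀ s, 0 ≤ W s)
    (hV : ∀ a ∈ R, ∀ b ∈ R, Nb a b → W s(a, b) = 0 ∨ t ≤ W s(a, b)) {a b : Z d}
    (p : (Lat d).Walk a b) (hp : InR p R) : cost W p = 0 ∨ t ≤ cost W p := by
  induction p with
  | nil => exact Or.inl rfl
  | cons h q ih =>
    rename_i a b c
    have hq : InR q R := fun v hv => hp v (by
      rw [SimpleGraph.Walk.support_cons]; exact List.mem_cons_of_mem _ hv)
    have ha : a ∈ R := hp a (SimpleGraph.Walk.start_mem_support _)
    have hb : b ∈ R := hq b (SimpleGraph.Walk.start_mem_support _)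
    have h2 := cost_nonneg hW q
    rw [cost_cons]
    rcases hV a ha b hb h with h3 | h3
    · rcases ih hq with h4 | h4
      · left; rw [h3, h4, add_zero]
      · right; rw [h3]; linarith
    · right; linarith

/-- The annuli argument. -/
theorem annuli (hW : ∀ s, 0 ≤ W s) (N : ℕ → ℕ) (hN : ∀ j, N j < N (j + 1)) (t : ℕ → ℝ) (j0 : ℕ)
    (hU : ∀ j, j0 ≤ j → zc W ∉ Ta (bondM d) 0 (N j) (N (j + 1)))
    (hV : ∀ j, j0 ≤ j → ∀ a ∈ Bo (0 : Z d) (N (j + 1)), ∀ b ∈ Bo (0 : Z d) (N (j + 1)), Nb a b →
      W s(a, b) = 0 ∨ t j ≤ W s(a, b))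
    {x y : Z d} (hx : x ∈ Bo (0 : Z d) (N j0)) (hy : y ∈ Bo (0 : Z d) (N j0)) (k : ℕ) :
    ∀ (u v : Z d) (p : (Lat d).Walk x u) (r : (Lat d).Walk v y),
      InR p (Bo (0 : Z d) (N (j0 + k))) → InR r (Bo (0 : Z d) (N (j0 + k))) →
      u ∈ Fr (0 : Z d) (N (j0 + k)) → v ∈ Fr (0 : Z d) (N (j0 + k)) →
      (∑ i ∈ Finset.range k, t (j0 + i) ≤ cost W p + cost W r) ∨
      ∃ w : (Lat d).Walk x y, InR w (Bo (0 : Z d) (N (j0 + k))) ∧
        cost W w ≤ cost W p + cost W r := by
  induction k with
  | zero =>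
    intro u v p r _ _ _ _
    left
    simpa using add_nonneg (cost_nonneg hW p) (cost_nonneg hW r)
  | succ k ih =>
    intro u v p r hp hr hu hv
    have hmono : ∀ i j : ℕ, i ≤ j → N i ≤ N j := fun i j hij => by
      induction hij with
      | refl => exact le_rfl
      | step _ ih' => exact ih'.trans (hN _).le
    have hlt : N (j0 + k) < N (j0 + (k + 1)) := hN (j0 + k)
    have hx' : x ∈ Bo (0 : Z d) (N (j0 + k)) := Bo_mono 0 (hmono _ _ (by omega)) hx
    have hy' : y ∈ Bo (0 : Z d) (N (j0 + k)) := Bo_mono 0 (hmono _ _ (by omega)) hy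
    have out : ∀ u : Z d, u ∈ Fr (0 : Z d) (N (j0 + (k + 1))) → u ∉ Bo (0 : Z d) (N (j0 + k)) := by
      intro u hu hc
      obtain ⟨i, hi⟩ := hu.2
      have := hc i
      rw [hi] at this
      have h' : N (j0 + (k + 1)) ≤ N (j0 + k) := by exact_mod_cast this
      omega
    obtain ⟨u', p1, p2, hu', hpe, hp1⟩ := exit_walk p hx' (out u hu)
    obtain ⟨v', r1, r2, hv', hre, hr1⟩ := exit_walk r.reverse hy' (out v hv)
    have hsub : Bo (0 : Z d) (N (j0 + k)) ⊆ Bo (0 : Z d) (N (j0 + (k + 1))) := Bo_mono 0 hlt.le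
    have hcp : cost W p = cost W p1 + cost W p2 := by rw [hpe, cost_append]
    have hcr : cost W r = cost W r1 + cost W r2 := by
      rw [← cost_reverse r, hre, cost_append]
    have hp2R : InR p2 (Bo (0 : Z d) (N (j0 + (k + 1)))) := fun z hz => hp z (by
      rw [hpe, SimpleGraph.Walk.mem_support_append_iff]; exact Or.inr hz)
    have hr2R : InR r2 (Bo (0 : Z d) (N (j0 + (k + 1)))) := fun z hz => InR_reverse hr z (by
      rw [hre, SimpleGraph.Walk.mem_support_append_iff]; exact Or.inr hz)
    have n1 := cost_nonneg hW p1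
    have n2 := cost_nonneg hW p2
    have n3 := cost_nonneg hW r1
    have n4 := cost_nonneg hW r2
    rcases ih u' v' p1 r1.reverse hp1 (InR_reverse hr1) hu' hv' with hs | ⟨w, hwR, hwc⟩
    · rw [cost_reverse] at hs
      have hVk := hV (j0 + k) (by omega)
      rcases cost_gap hW hVk p2 hp2R with g1 | g1
      · rcases cost_gap hW hVk r2 hr2R with g2 | g2
        · -- both crossings are free
          right
          have c1 := reach_of_cost hW p2 hp2R g1
          have c2 := reach_of_cost hW r2 hr2R g2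
          have hT := hU (j0 + k) (by omega)
          have hreach : (G (bondM d) (zc W) (Bo (0 : Z d) (N (j0 + k + 1)))).Reachable u' v' := by
            by_contra hc
            exact hT ⟨u', hu'.1, v', hv'.1, ⟨u, hu, c1⟩, ⟨v, hv, c2⟩, hc⟩
          obtain ⟨z, hzR, hzc⟩ := cost_of_reach (hsub hu'.1) hreach
          refine ⟨(p1.append z).append r1.reverse, ?_, ?_⟩
          · exact InR_append (InR_append (InR_mono hsub hp1) hzR)
              (InR_mono hsub (InR_reverse hr1))
          · rw [cost_append, cost_append, cost_reverse, hzc]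
            linarith
        · left
          rw [Finset.sum_range_succ]
          linarith
      · left
        rw [Finset.sum_range_succ]
        linarith
    · right
      rw [cost_reverse] at hwc
      exact ⟨w, InR_mono hsub hwR, by linarith⟩

/-- Minimal walks exist in good environments. -/
theorem min_exists (hW : ∀ s, 0 ≤ W s) (N : ℕ → ℕ) (hN : ∀ j, N j < N (j + 1)) (t : ℕ → ℝ)
    (ht : ∀ j, 0 ≤ t j) (hdiv : ¬ Summable t) (j0 : ℕ)
    (hU : ∀ j, j0 ≤ j → zc W ∉ Ta (bondM d) 0 (N j) (N (j + 1)))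
    (hV : ∀ j, j0 ≤ j → ∀ a ∈ Bo (0 : Z d) (N (j + 1)), ∀ b ∈ Bo (0 : Z d) (N (j + 1)), Nb a b →
      W s(a, b) = 0 ∨ t j ≤ W s(a, b)) (x y : Z d) :
    ∃ w : (Lat d).Walk x y, ∀ w' : (Lat d).Walk x y, cost W w ≤ cost W w' := by
  -- the starting scale
  have hNj : ∀ j, j ≤ N j := fun j => by
    induction j with
    | zero => exact Nat.zero_le _
    | succ j ih => exact Nat.succ_le_of_lt (lt_of_le_of_lt ih (hN j))
  set j1 : ℕ := max j0 (max (nm x) (nm y)) with hj1
  have hj01 : j0 ≤ j1 := le_max_left _ _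
  have memB : ∀ z : Z d, nm z ≤ j1 → z ∈ Bo (0 : Z d) (N j1) := by
    intro z hz i
    have h1 := abs_le_nm z i
    have h2 : (nm z : ℤ) ≤ N j1 := by exact_mod_cast hz.trans (hNj j1)
    simp only [Pi.zero_apply, sub_zero]
    linarith
  have hx : x ∈ Bo (0 : Z d) (N j1) := memB x (le_max_of_le_right (le_max_left _ _))
  have hy : y ∈ Bo (0 : Z d) (N j1) := memB y (le_max_of_le_right (le_max_right _ _))
  obtain ⟨w0⟩ := lat_reach x y
  set K := cost W w0 with hK
  -- choice of the number of annuli
  have hdiv' : ¬ Summable (fun i => t (j1 + i)) := by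
    intro hs
    apply hdiv
    rw [← summable_nat_add_iff j1]
    refine hs.congr fun i => ?_
    rw [add_comm]
  have htend := (not_summable_iff_tendsto_nat_atTop_of_nonneg (fun i => ht (j1 + i))).1 hdiv'
  obtain ⟨k, hk⟩ := (htend.eventually_gt_atTop K).exists
  refine min_of_fin hW (Bo_finite (0 : Z d) (N (j1 + k))) ⟨w0, le_rfl⟩ fun w hw => ?_
  by_cases hin : InR w (Bo (0 : Z d) (N (j1 + k)))
  · exact ⟨w, hin, le_rfl⟩
  · unfold InR at hin
    push Not at hin
    obtain ⟨z, hz, hzo⟩ := hin
    have hmono : ∀ i j : ℕ, i ≤ j → N i ≤ N j := fun i j hij => by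
      induction hij with
      | refl => exact le_rfl
      | step _ ih' => exact ih'.trans (hN _).le
    have hx' : x ∈ Bo (0 : Z d) (N (j1 + k)) := Bo_mono 0 (hmono _ _ (by omega)) hx
    have hy' : y ∈ Bo (0 : Z d) (N (j1 + k)) := Bo_mono 0 (hmono _ _ (by omega)) hy
    classical
    have hsplit : w = (w.takeUntil z hz).append (w.dropUntil z hz) := (w.take_spec hz).symm
    obtain ⟨u, p1, p2, hu, hpe, hp1⟩ := exit_walk (w.takeUntil z hz) hx' hzo
    obtain ⟨v, r1, r2, hv, hre, hr1⟩ := exit_walk (w.dropUntil z hz).reverse hy' hzo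
    have hcost : cost W w = cost W p1 + cost W p2 + (cost W r1 + cost W r2) := by
      rw [hsplit, cost_append, ← cost_reverse (w.dropUntil z hz), hre, hpe, cost_append,
        cost_append]
    have n2 := cost_nonneg hW p2
    have n4 := cost_nonneg hW r2
    rcases annuli hW N hN t j1 (fun j hj => hU j (hj01.trans hj))
      (fun j hj => hV j (hj01.trans hj)) hx hy k u v p1 r1.reverse hp1 (InR_reverse hr1) hu hv with
      h1 | ⟨w', h1, h2⟩
    · exfalso
      rw [cost_reverse] at h1
      linarith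
    · rw [cost_reverse] at h2
      exact ⟨w', h1, by linarith⟩

end

end Pool.Agent.Helper401_FP
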