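import Pool.Agent.Helper401_FP.Det

set_option autoImplicit false

open MeasureTheory Set ProbabilityTheory

/-!
First-passage percolation on `Z^d`: the law of the configuration of the edges of weight zero
(helper401).
-/

namespace Pool.Agent.Helper401_FP

open Pool.Agent.Y990.CB
open Pool.Agent.W783.PC (pm DepOn Inc bern)

noncomputable section

variable {d : ℕ}

/-- Extension of a configuration of the edges to unordered pairs. -/
def ex (η : E d → Bool) : Sym2 (Z d) → Bool := by
  classical exact fun s => if h : ∃ e, ed e = s then η h.choose else true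

lemma ex_ed (η : E d → Bool) (e : E d) : ex η (ed e) = η e := by
  unfold ex
  have h : ∃ e', ed e' = ed e := ⟨e, rfl⟩
  simp only [dif_pos h]
  exact congrArg η (ed_inj h.choose_spec)

lemma ex_meas : Measurable (ex (d := d)) := by
  classical
  rw [measurable_pi_iff]
  intro s
  unfold ex
  by_cases h : ∃ e, ed e = s
  · simp only [dif_pos h]
    exact measurable_pi_apply _
  · simp only [dif_neg h]
    exact measurable_const

/-- Restriction to the edges. -/
lemma map_restr (p : unitInterval) :
    (pm (fun _ : Sym2 (Z d) => p)).map (fun (ω : Sym2 (Z d) → Bool) (e : E d) => ω (ed e)) =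
      pm (fun _ : E d => p) := by
  have hm : Measurable (fun (ω : Sym2 (Z d) → Bool) (e : E d) => ω (ed e)) := by fun_prop
  unfold pm
  apply Measure.eq_infinitePi
  intro s t ht
  classical
  rw [Measure.map_apply hm (MeasurableSet.pi s.countable_toSet fun i _ =>
    MeasurableSet.of_discrete)]
  have h1 : (fun (ω : Sym2 (Z d) → Bool) (e : E d) => ω (ed e)) ⁻¹' (Set.pi s t) =
      Set.pi ((s.map ⟨ed, ed_inj⟩ : Finset (Sym2 (Z d))) : Set (Sym2 (Z d)))
        (fun c => if h : ∃ e, ed e = c then t h.choose else univ) := by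
    ext ω
    simp only [Set.mem_preimage, Set.mem_pi, Finset.mem_coe, Finset.mem_map,
      Function.Embedding.coeFn_mk]
    have key : ∀ e : E d, (if h : ∃ e', ed e' = ed e then t h.choose else univ) = t e := by
      intro e
      have h : ∃ e', ed e' = ed e := ⟨e, rfl⟩
      rw [dif_pos h]
      exact congrArg t (ed_inj h.choose_spec)
    constructor
    · rintro h _ ⟨c, hc, rfl⟩
      rw [key]
      exact h c hc
    · intro h c hc
      have := h (ed c) ⟨c, hc, rfl⟩
      rwa [key] at this
  rw [h1]
  change (Measure.infinitePi fun _ : Sym2 (Z d) => bern p) _ = _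
  rw [Measure.infinitePi_pi _ (fun i _ => MeasurableSet.of_discrete), Finset.prod_map]
  refine Finset.prod_congr rfl fun c _ => ?_
  simp only [Function.Embedding.coeFn_mk]
  have h : ∃ e', ed e' = ed c := ⟨c, rfl⟩
  rw [dif_pos h]
  congr 1
  exact congrArg t (ed_inj h.choose_spec)

/-- The coordinates of the edges. -/
def Ed (d : ℕ) : Set (Sym2 (Z d)) := range (ed (d := d))

lemma mu_ex {p : unitInterval} {A : Set (Sym2 (Z d) → Bool)} (hA : MeasurableSet A)
    (hd : DepOn A (Ed d)) :
    pm (fun _ : E d => p) {η | ex η ∈ A} = pm (fun _ : Sym2 (Z d) => p) A := by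
  have hm : Measurable (fun (ω : Sym2 (Z d) → Bool) (e : E d) => ω (ed e)) := by fun_prop
  have hA' : MeasurableSet {η : E d → Bool | ex η ∈ A} := ex_meas hA
  rw [← map_restr p, Measure.map_apply hm hA']
  congr 1
  ext ω
  refine hd _ _ ?_
  rintro _ ⟨e, rfl⟩
  exact ex_ed _ e

variable {Ω : Type} [MeasurableSpace Ω] {P : Measure Ω} [IsProbabilityMeasure P]
  {X : E d → Ω → ℝ} {μ : Measure ℝ}

/-- The law of the configuration of the edges whose weight lies in `S`. -/
theorem law_set (hX : ∀ e, Measurable (X e)) (hi : iIndepFun X P)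
    (hμ : ∀ e, Measure.map (X e) P = μ) {S : Set ℝ} (hS : MeasurableSet S)
    [DecidablePred (· ∈ S)] (p : unitInterval)
    (hp : μ S = ENNReal.ofReal p) {A : Set (Sym2 (Z d) → Bool)} (hA : MeasurableSet A)
    (hd : DepOn A (Ed d)) :
    P {ω | ex (fun e => decide (X e ω ∈ S)) ∈ A} = mu (bondM d) p A := by
  have hmS : Measurable (fun x : ℝ => decide (x ∈ S)) := by
    refine measurable_to_bool ?_
    have h1 : (fun x : ℝ => decide (x ∈ S)) ⁻¹' {true} = S := by
      ext u; simp
    rw [h1]
    exact hS
  have hi2 : iIndepFun (fun e => (fun x : ℝ => decide (x ∈ S)) ∘ X e) P :=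
    hi.comp (fun _ x => decide (x ∈ S)) (fun _ => hmS)
  have hX2 : ∀ e, Measurable ((fun x : ℝ => decide (x ∈ S)) ∘ X e) := fun e => hmS.comp (hX e)
  have hlaw : ∀ e, Measure.map ((fun x : ℝ => decide (x ∈ S)) ∘ X e) P = bern p := by
    intro e
    rw [← Measure.map_map hmS (hX e), hμ e]
    have hprob : IsProbabilityMeasure μ := by
      rw [← hμ e]
      exact Measure.isProbabilityMeasure_map (hX e).aemeasurable
    refine Measure.ext_of_singleton fun b => ?_
    rw [Measure.map_apply hmS (measurableSet_singleton b)]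
    cases b with
    | true =>
      have h1 : (fun x : ℝ => decide (x ∈ S)) ⁻¹' {true} = S := by
        ext u; simp
      rw [h1, hp]
      exact (Pool.Agent.W400.PC.bern_true p).symm
    | false =>
      have h1 : (fun x : ℝ => decide (x ∈ S)) ⁻¹' {false} = Sᶜ := by
        ext u; simp
      rw [h1, prob_compl_eq_one_sub hS, hp, Pool.Agent.W400.PC.bern_false,
        ENNReal.ofReal_sub _ p.2.1, ENNReal.ofReal_one]
  have h3 := (iIndepFun_iff_map_fun_eq_infinitePi_map₀' (fun e => (hX2 e).aemeasurable)).1 hi2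
  have h4 : P.map (fun ω e => decide (X e ω ∈ S)) = pm (fun _ : E d => p) := by
    unfold pm
    rw [← funext hlaw]
    exact h3
  have hm : Measurable (fun (ω : Ω) (e : E d) => decide (X e ω ∈ S)) :=
    measurable_pi_lambda _ hX2
  have hA' : MeasurableSet {η : E d → Bool | ex η ∈ A} := ex_meas hA
  have h5 : mu (bondM d) p A = pm (fun _ : Sym2 (Z d) => p) A := rfl
  rw [h5, ← mu_ex hA hd, ← h4, Measure.map_apply hm hA']
  rfl

/-- The law of the configuration of the edges of weight zero. -/
theorem law_zc (hX : ∀ e, Measurable (X e)) (hi : iIndepFun X P)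
    (hμ : ∀ e, Measure.map (X e) P = μ) (p : unitInterval)
    (hp : μ {0} = ENNReal.ofReal p) {A : Set (Sym2 (Z d) → Bool)} (hA : MeasurableSet A)
    (hd : DepOn A (Ed d)) :
    P {ω | zc (wt fun e => X e ω) ∈ A} = mu (bondM d) p A := by
  classical
  rw [← law_set hX hi hμ (measurableSet_singleton (0 : ℝ)) p hp hA hd]
  congr 1
  ext ω
  refine hd _ _ ?_
  rintro _ ⟨e, rfl⟩
  rw [ex_ed]
  unfold zc
  rw [wt_ed]
  simp

/-- Coordinates inside a region are edges. -/
lemma In_sub_Ed (R : Set (Z d)) : In (bondM d) R ⊆ Ed d := by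
  rintro c ⟨x, _, y, _, h, hc⟩
  have : c = s(x, y) := Finset.mem_singleton.1 hc
  obtain ⟨e, he⟩ := exists_ed h
  exact ⟨e, by rw [he, this]⟩

end

end Pool.Agent.Helper401_FP
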