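import Pool.Agent.Helper401_FP.Lvl
import Pool.Agent.Helper401_FP.Law

set_option autoImplicit false

open MeasureTheory Set ProbabilityTheory

/-!
First-passage percolation on `Z^d`: explosions do not occur above the critical point
(helper401).
-/

namespace Pool.Agent.Helper401_FP

open Pool.Agent.Y990.CB
open Pool.Agent.W783.PC (pm DepOn Inc bern)
open Pool.Agent.Helper401_HS (not_in Hs PH cl_meas cl_meas' half sg sg_Nb sg_apply mb abs_unit)

noncomputable section

variable {d : ℕ}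

instance walk_countable (x y : Z d) : Countable ((Lat d).Walk x y) := by
  have : Function.Injective (fun w : (Lat d).Walk x y => w.support) :=
    fun _ _ h => SimpleGraph.Walk.ext_support h
  exact this.countable

lemma wt_meas (s : Sym2 (Z d)) : Measurable (fun x : E d → ℝ => wt x s) := by
  classical
  unfold wt
  by_cases h : ∃ e, ed e = s
  · simp only [dif_pos h]
    exact measurable_pi_apply _
  · simp only [dif_neg h]
    exact measurable_const

lemma mk_meas (i : Fin d) (t : ℤˣ) (n : ℤ) (M : ℝ) (s : Sym2 (Z d)) :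
    Measurable (fun x : E d → ℝ => mk i t n M x s) := by
  by_cases h : s ∈ (In (bondM d) (Hn i t n) : Set (Sym2 (Z d)))
  · have : (fun x : E d → ℝ => mk i t n M x s) = fun _ => M := funext fun x => mk_in h
    rw [this]
    exact measurable_const
  · have : (fun x : E d → ℝ => mk i t n M x s) = fun x => wt x s := funext fun x => mk_out h
    rw [this]
    exact wt_meas s

lemma cost_meas (i : Fin d) (t : ℤˣ) (n : ℤ) (M : ℝ) {a b : Z d} (w : (Lat d).Walk a b) :
    Measurable (fun x : E d → ℝ => cost (mk i t n M x) w) := by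
  induction w with
  | nil => exact measurable_const
  | cons h q ih =>
    simp only [cost_cons]
    exact (mk_meas i t n M _).add ih

lemma Ev_meas (i : Fin d) (t : ℤˣ) (M : ℝ) (a : Z d) (n : ℤ) (v : Z d) :
    MeasurableSet (Ev i t M a n v) := by
  have h1 : Ev i t M a n v = {_x | (t : ℤ) * v i = n} ∩ ⋃ w : (Lat d).Walk a v,
      ({x | cost (mk i t n M x) w < M} ∩ ⋂ v' : Z d, ⋂ (_ : (t : ℤ) * v' i = n),
        ⋂ w' : (Lat d).Walk a v', {x | cost (mk i t n M x) w ≤ cost (mk i t n M x) w'}) := by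
    ext x
    simp only [Ev, mem_inter_iff, mem_iUnion, mem_iInter, mem_ofPred_eq]
  rw [h1]
  refine (MeasurableSet.const _).inter (MeasurableSet.iUnion fun w => ?_)
  refine (measurableSet_lt (cost_meas i t n M w) measurable_const).inter ?_
  exact MeasurableSet.iInter fun v' => MeasurableSet.iInter fun _ => MeasurableSet.iInter fun w' =>
    measurableSet_le (cost_meas i t n M w) (cost_meas i t n M w')

/-- The coordinates of the edges inside the half-space. -/
def Ih (i : Fin d) (t : ℤˣ) (n : ℤ) : Set (E d) :=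
  {e | ed e ∈ (In (bondM d) (Hn i t n) : Set (Sym2 (Z d)))}

lemma mk_congr {i : Fin d} {t : ℤˣ} {n : ℤ} {M : ℝ} {x x' : E d → ℝ}
    (h : ∀ e ∈ (Ih i t n)ᶜ, x e = x' e) : mk i t n M x = mk i t n M x' := by
  funext s
  by_cases hs : s ∈ (In (bondM d) (Hn i t n) : Set (Sym2 (Z d)))
  · rw [mk_in hs, mk_in hs]
  · rw [mk_out hs, mk_out hs]
    unfold wt
    by_cases he : ∃ e, ed e = s
    · rw [dif_pos he, dif_pos he]
      refine h _ ?_
      intro hc
      refine hs ?_
      have : ed he.choose = s := he.choose_spec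
      rw [← this]
      exact hc
    · rw [dif_neg he, dif_neg he]

lemma Ev_dp (i : Fin d) (t : ℤˣ) (M : ℝ) (a : Z d) (n : ℤ) (v : Z d) :
    Dp (Ev i t M a n v) (Ih i t n)ᶜ := by
  intro x x' h
  unfold Ev
  rw [mem_ofPred_eq, mem_ofPred_eq, mk_congr h]

/-- The zero cluster of `v` in the half-space is infinite. -/
def Cv (i : Fin d) (t : ℤˣ) (n : ℤ) (v : Z d) : Set (E d → ℝ) :=
  {x | (cl (bondM d) (zc (wt x)) (Hn i t n) v).Infinite}

lemma zc_meas : Measurable (fun x : E d → ℝ => zc (wt x)) := by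
  rw [measurable_pi_iff]
  intro s
  refine measurable_to_bool ?_
  have h1 : (fun x : E d → ℝ => zc (wt x) s) ⁻¹' {true} = (fun x => wt x s) ⁻¹' {0} := by
    ext x
    simp [zc]
  rw [h1]
  exact wt_meas s (measurableSet_singleton 0)

lemma Cv_meas (i : Fin d) (t : ℤˣ) (n : ℤ) (v : Z d) : MeasurableSet (Cv i t n v) :=
  zc_meas (cl_meas (Hn i t n) v)

lemma Cv_dp (i : Fin d) (t : ℤˣ) (n : ℤ) (v : Z d) : Dp (Cv i t n v) (Ih i t n) := by
  intro x x' h
  have hg : G (bondM d) (zc (wt x)) (Hn i t n) = G (bondM d) (zc (wt x')) (Hn i t n) := by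
    refine graph_congr (M := bondM d) fun c hc => ?_
    obtain ⟨e, rfl⟩ := In_sub_Ed _ hc
    have := h e hc
    show decide (wt x (ed e) = 0) = decide (wt x' (ed e) = 0)
    rw [wt_ed, wt_ed, this]
  show (cl (bondM d) (zc (wt x)) (Hn i t n) v).Infinite ↔
    (cl (bondM d) (zc (wt x')) (Hn i t n) v).Infinite
  unfold cl
  rw [hg]

/-! ### Symmetries of half-spaces -/

lemma cl_sym (σ : Z d ≃ Z d) (hσ : ∀ x y, Nb (σ x) (σ y) ↔ Nb x y) (ω : Sym2 (Z d) → Bool)
    (R : Set (Z d)) (x : Z d) :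
    (cl (bondM d) (fun c => ω ((bondM d).tr σ c)) R x).Infinite ↔
      (cl (bondM d) ω (σ '' R) (σ x)).Infinite := by
  have h1 : cl (bondM d) ω (σ '' R) (σ x) =
      σ '' (cl (bondM d) (fun c => ω ((bondM d).tr σ c)) R x) := by
    ext y
    constructor
    · intro hy
      refine ⟨σ.symm y, ?_, σ.apply_symm_apply y⟩
      refine (reach_sym (bondM d) σ hσ ω R x (σ.symm y)).2 ?_
      rw [σ.apply_symm_apply]
      exact hy
    · rintro ⟨z, hz, rfl⟩
      exact (reach_sym (bondM d) σ hσ ω R x z).1 hz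
  rw [h1]
  exact (Set.infinite_image_iff σ.injective.injOn).symm

lemma half_sym (p : unitInterval) (i : Fin d) (t : ℤˣ) {n : ℤ} {v : Z d}
    (hv : (t : ℤ) * v i = n) :
    mb d p {ω | (cl (bondM d) ω (Hn i t n) v).Infinite} = mb d p (PH i) := by
  set σ : Z d ≃ Z d := (sg i i t).trans (sf v) with hσ
  have hNb : ∀ x y, Nb (σ x) (σ y) ↔ Nb x y := by
    intro x y
    rw [hσ, Equiv.trans_apply, Equiv.trans_apply, Nb_sf, sg_Nb]
  have h1 := mu_inv (bondM d) p σ (cl_meas' (bondM d) (Hs i) (0 : Z d))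
  refine Eq.trans ?_ h1
  have e0 : σ 0 = v := by
    rw [hσ, Equiv.trans_apply]
    have : sg i i t 0 = 0 := by
      funext l
      rw [sg_apply]
      simp
    rw [this]
    exact zero_add v
  have e1 : σ '' Hs i = Hn i t n := by
    have hval : ∀ x : Z d, σ x i = (t : ℤ) * x i + v i := by
      intro x
      rw [hσ, Equiv.trans_apply]
      show sg i i t x i + v i = _
      rw [sg_apply, Equiv.swap_self]
      rfl
    have htt : (t : ℤ) * t = 1 := Int.units_coe_mul_self t
    ext y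
    constructor
    · rintro ⟨x, hx, rfl⟩
      have hx' : 0 ≤ x i := hx
      show n ≤ (t : ℤ) * σ x i
      rw [hval, mul_add, hv, ← mul_assoc, htt, one_mul]
      linarith
    · intro hy
      have hy' : n ≤ (t : ℤ) * y i := hy
      refine ⟨σ.symm y, ?_, σ.apply_symm_apply y⟩
      have h2 := hval (σ.symm y)
      rw [σ.apply_symm_apply] at h2
      show 0 ≤ (σ.symm y) i
      rw [h2, mul_add, hv, ← mul_assoc, htt, one_mul] at hy'
      linarith
  have e2 : {ω : Sym2 (Z d) → Bool | (cl (bondM d) ω (Hn i t n) v).Infinite} =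
      {ω | (fun c => ω ((bondM d).tr σ c)) ∈
        {ω : Sym2 (Z d) → Bool | (cl (bondM d) ω (Hs i) 0).Infinite}} := by
    ext ω
    have := cl_sym σ hNb ω (Hs i) 0
    rw [e0, e1] at this
    exact this.symm
  rw [e2]
  rfl

lemma infin_dep (R : Set (Z d)) (v : Z d) :
    DepOn {ω : Sym2 (Z d) → Bool | (cl (bondM d) ω R v).Infinite} (Ed d) := by
  intro ω ω' h
  have hg : G (bondM d) ω R = G (bondM d) ω' R :=
    graph_congr (M := bondM d) fun c hc => h c (In_sub_Ed _ hc)
  show (cl (bondM d) ω R v).Infinite ↔ (cl (bondM d) ω' R v).Infinite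
  unfold cl
  rw [hg]

/-- The law of `Cv`. -/
lemma Cv_prob (μ : Measure ℝ) [IsProbabilityMeasure μ] (p : unitInterval)
    (hp : μ {0} = ENNReal.ofReal p) (i : Fin d) (t : ℤˣ) {n : ℤ} {v : Z d}
    (hv : (t : ℤ) * v i = n) :
    Measure.infinitePi (fun _ : E d => μ) (Cv i t n v) = mb d p (PH i) := by
  rw [← half_sym p i t hv]
  have h1 : iIndepFun (fun (e : E d) (x : E d → ℝ) => x e)
      (Measure.infinitePi (fun _ : E d => μ)) :=
    iIndepFun_infinitePi (X := fun _ (y : ℝ) => y) (fun _ => measurable_id)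
  have h2 : ∀ e : E d, Measure.map (fun x : E d → ℝ => x e)
      (Measure.infinitePi (fun _ : E d => μ)) = μ := fun e =>
    Measure.infinitePi_map_eval (fun _ : E d => μ) e
  exact law_zc (X := fun (e : E d) (x : E d → ℝ) => x e) (fun e => measurable_pi_apply e) h1 h2 p hp
    (cl_meas (Hn i t n) v) (infin_dep _ _)

/-! ### The explosion event has probability zero -/

/-- The disjoint version of the events `Ev`. -/
def Dv (i : Fin d) (t : ℤˣ) (M : ℝ) (a : Z d) (f : ℕ → Z d) (n : ℤ) (k : ℕ) : Set (E d → ℝ) :=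
  Ev i t M a n (f k) \ ⋃ j : ℕ, ⋃ (_ : j < k), Ev i t M a n (f j)

lemma Dv_meas (i : Fin d) (t : ℤˣ) (M : ℝ) (a : Z d) (f : ℕ → Z d) (n : ℤ) (k : ℕ) :
    MeasurableSet (Dv i t M a f n k) :=
  (Ev_meas i t M a n (f k)).diff
    (MeasurableSet.iUnion fun j => MeasurableSet.iUnion fun _ => Ev_meas i t M a n (f j))

lemma Dv_dp (i : Fin d) (t : ℤˣ) (M : ℝ) (a : Z d) (f : ℕ → Z d) (n : ℤ) (k : ℕ) :
    Dp (Dv i t M a f n k) (Ih i t n)ᶜ :=
  Dp.inter (Ev_dp i t M a n (f k))
    (Dp.compl (Dp.iUnion fun j => Dp.iUnion fun _ => Ev_dp i t M a n (f j)))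

lemma Dv_disj {i : Fin d} {t : ℤˣ} {M : ℝ} {a : Z d} {f : ℕ → Z d} {n : ℤ} {j k : ℕ}
    {x : E d → ℝ} (h : x ∈ Dv i t M a f n j) (h' : x ∈ Dv i t M a f n k) : j = k := by
  have key : ∀ j k : ℕ, x ∈ Dv i t M a f n j → x ∈ Dv i t M a f n k → ¬ j < k := by
    intro j k h h' hlt
    refine h'.2 ?_
    rw [mem_iUnion₂]
    exact ⟨j, hlt, h.1⟩
  have h1 := key j k h h'
  have h2 := key k j h' h
  omega

lemma Dv_cover {i : Fin d} {t : ℤˣ} {M : ℝ} {a : Z d} {f : ℕ → Z d} (hf : Function.Surjective f)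
    {n : ℤ} {x : E d → ℝ} {v : Z d} (h : x ∈ Ev i t M a n v) : ∃ k, x ∈ Dv i t M a f n k := by
  classical
  obtain ⟨k0, rfl⟩ := hf v
  have hex : ∃ k, x ∈ Ev i t M a n (f k) := ⟨k0, h⟩
  refine ⟨Nat.find hex, Nat.find_spec hex, ?_⟩
  intro hc
  rw [mem_iUnion₂] at hc
  obtain ⟨j, hj, hx⟩ := hc
  exact Nat.find_min hex hj hx

/-- A measurable event containing the explosion. -/
def As (i : Fin d) (t : ℤˣ) (M : ℝ) (a : Z d) (f : ℕ → Z d) : Set (E d → ℝ) :=
  ⋂ n : ℤ, ⋂ (_ : (t : ℤ) * a i < n), ⋃ k : ℕ, (Dv i t M a f n k \ Cv i t n (f k))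

lemma As_meas (i : Fin d) (t : ℤˣ) (M : ℝ) (a : Z d) (f : ℕ → Z d) :
    MeasurableSet (As i t M a f) :=
  MeasurableSet.iInter fun n => MeasurableSet.iInter fun _ => MeasurableSet.iUnion fun k =>
    (Dv_meas i t M a f n k).diff (Cv_meas i t n (f k))

lemma bad_sub_As {i : Fin d} {t : ℤˣ} {M : ℝ} (hM : 0 ≤ M) {a : Z d} {f : ℕ → Z d}
    (hf : Function.Surjective f) {x : E d → ℝ} (hx : ∀ e, 0 ≤ x e) (hb : BadD i t M a x) :
    x ∈ As i t M a f := by
  unfold As
  rw [mem_iInter₂]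
  intro n hn
  obtain ⟨v, hv⟩ := Ev_of_bad hM hx hb hn
  obtain ⟨k, hk⟩ := Dv_cover hf hv
  rw [mem_iUnion]
  exact ⟨k, hk, fun hc => hc (Ev_fin hM hx hb hn hk.1)⟩

/-- **The explosion event has probability zero.** -/
theorem As_zero (μ : Measure ℝ) [IsProbabilityMeasure μ] (p : unitInterval)
    (hp : μ {0} = ENNReal.ofReal p) (i : Fin d) (hθ : 0 < (mb d p).real (PH i)) (t : ℤˣ) (M : ℝ)
    (a : Z d) (f : ℕ → Z d) :
    Measure.infinitePi (fun _ : E d => μ) (As i t M a f) = 0 := by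
  classical
  set Q := Measure.infinitePi (fun _ : E d => μ) with hQ
  set θ := (mb d p).real (PH i) with hθd
  have hθ1 : θ ≤ 1 := measureReal_le_one
  by_contra hne
  set q := Q.real (As i t M a f) with hq
  have hq0 : 0 < q := ENNReal.toReal_pos hne (measure_ne_top _ _)
  set ε : ℝ := θ * q / 4 with hε
  have hε0 : 0 < ε := by positivity
  obtain ⟨I, A', hA'm, hA'd, hA'⟩ := dp_approx μ (As_meas i t M a f)
    (ε := ENNReal.ofReal ε) (by rw [ENNReal.ofReal_pos]; exact hε0)
  rw [← hQ] at hA'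
  have hsym : Q.real (symmDiff A' (As i t M a f)) < ε := by
    have h1 := (ENNReal.toReal_lt_toReal (measure_ne_top Q _) ENNReal.ofReal_ne_top).2 hA'
    rwa [ENNReal.toReal_ofReal hε0.le] at h1
  have hd1 : Q.real (A' \ As i t M a f) ≤ ε := by
    refine (measureReal_mono ?_ (measure_ne_top _ _)).trans hsym.le
    exact fun x hx => Or.inl hx
  have hd2 : Q.real (As i t M a f \ A') ≤ ε := by
    refine (measureReal_mono ?_ (measure_ne_top _ _)).trans hsym.le
    exact fun x hx => Or.inr hx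
  -- a level above all edges of `I`
  obtain ⟨n, hn1, hn2⟩ : ∃ n : ℤ, (t : ℤ) * a i < n ∧ ∀ e ∈ I, (t : ℤ) * e.1 i < n := by
    obtain ⟨N, hN⟩ := (I.finite_toSet.image (fun e : E d => (t : ℤ) * e.1 i)).bddAbove
    refine ⟨max N ((t : ℤ) * a i) + 1, ?_, ?_⟩
    · have := le_max_right N ((t : ℤ) * a i)
      omega
    · intro e he
      have h1 : (t : ℤ) * e.1 i ≤ N := hN ⟨e, Finset.mem_coe.2 he, rfl⟩
      have := le_max_left N ((t : ℤ) * a i)
      omega
  have hI : (I : Set (E d)) ⊆ (Ih i t n)ᶜ := by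
    intro e he hc
    have h1 := hn2 e (Finset.mem_coe.1 he)
    have h2 : e.1 ∉ Hn i t n := fun h => absurd (show n ≤ (t : ℤ) * e.1 i from h) (not_le.2 h1)
    exact not_in h2 hc
  have hA'd' : Dp A' (Ih i t n)ᶜ := hA'd.mono hI
  -- independence
  have hind : ∀ k, Q (A' ∩ (Dv i t M a f n k ∩ Cv i t n (f k))) =
      Q (A' ∩ Dv i t M a f n k) * ENNReal.ofReal θ := by
    intro k
    by_cases hlev : (t : ℤ) * f k i = n
    · rw [← inter_assoc, hQ, dp_indep μ (hA'm.inter (Dv_meas i t M a f n k)) (Cv_meas i t n (f k))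
        (hA'd'.inter (Dv_dp i t M a f n k)) (Cv_dp i t n (f k)) disjoint_compl_left,
        Cv_prob μ p hp i t hlev]
      congr 1
      rw [hθd]
      exact (ENNReal.ofReal_toReal (measure_ne_top _ _)).symm
    · have h1 : Dv i t M a f n k = ∅ := by
        rw [Set.eq_empty_iff_forall_notMem]
        intro x hx
        exact hlev hx.1.1
      rw [h1]
      simp
  set U1 : Set (E d → ℝ) := ⋃ k, (A' ∩ (Dv i t M a f n k ∩ Cv i t n (f k))) with hU1
  set U2 : Set (E d → ℝ) := ⋃ k, (A' ∩ Dv i t M a f n k) with hU2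
  have hsum : Q U1 = Q U2 * ENNReal.ofReal θ := by
    rw [hU1, hU2, measure_iUnion, measure_iUnion, ← ENNReal.tsum_mul_right]
    · exact tsum_congr hind
    · intro j k hjk
      rw [Function.onFun, Set.disjoint_left]
      intro x hx hx'
      exact hjk (Dv_disj hx.2 hx'.2)
    · exact fun k => hA'm.inter (Dv_meas i t M a f n k)
    · intro j k hjk
      rw [Function.onFun, Set.disjoint_left]
      intro x hx hx'
      exact hjk (Dv_disj hx.2.1 hx'.2.1)
    · exact fun k => hA'm.inter ((Dv_meas i t M a f n k).inter (Cv_meas i t n (f k)))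
  have hsumR : Q.real U1 = Q.real U2 * θ := by
    unfold Measure.real
    rw [hsum, ENNReal.toReal_mul, ENNReal.toReal_ofReal hθ.le]
  have h1 : Q.real U1 ≤ ε := by
    refine (measureReal_mono ?_ (measure_ne_top _ _)).trans hd1
    intro x hx
    rw [hU1, mem_iUnion] at hx
    obtain ⟨k, hxA, hxD, hxC⟩ := hx
    refine ⟨hxA, fun hc => ?_⟩
    unfold As at hc
    rw [mem_iInter₂] at hc
    have h2 := hc n hn1
    rw [mem_iUnion] at h2
    obtain ⟨k', h3, h4⟩ := h2
    have := Dv_disj hxD h3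
    subst this
    exact h4 hxC
  have h2 : q - ε ≤ Q.real U2 := by
    have h3 : q ≤ Q.real (A' ∩ As i t M a f) + Q.real (As i t M a f \ A') := by
      rw [hq]
      have h4 : As i t M a f ⊆ (A' ∩ As i t M a f) ∪ (As i t M a f \ A') := by
        intro x hx
        by_cases hxA : x ∈ A'
        · exact Or.inl ⟨hxA, hx⟩
        · exact Or.inr ⟨hx, hxA⟩
      exact (measureReal_mono h4 (measure_ne_top _ _)).trans (measureReal_union_le _ _)
    have h5 : Q.real (A' ∩ As i t M a f) ≤ Q.real U2 := by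
      refine measureReal_mono ?_ (measure_ne_top _ _)
      rintro x ⟨hxA, hxAs⟩
      unfold As at hxAs
      rw [mem_iInter₂] at hxAs
      have h6 := hxAs n hn1
      rw [mem_iUnion] at h6
      obtain ⟨k, h7, _⟩ := h6
      rw [hU2, mem_iUnion]
      exact ⟨k, hxA, h7⟩
    linarith
  have h3 : (q - ε) * θ ≤ ε := by
    calc (q - ε) * θ ≤ Q.real U2 * θ := mul_le_mul_of_nonneg_right h2 hθ.le
      _ = Q.real U1 := hsumR.symm
      _ ≤ ε := h1
  have h4 : ε ≤ q / 4 := by
    rw [hε]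
    have : θ * q ≤ 1 * q := mul_le_mul_of_nonneg_right hθ1 hq0.le
    linarith
  have h5 : (3 * q / 4) * θ ≤ ε := by
    refine le_trans ?_ h3
    exact mul_le_mul_of_nonneg_right (by linarith) hθ.le
  rw [hε] at h5
  nlinarith

end

end Pool.Agent.Helper401_FP
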