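import Mathlib

set_option autoImplicit false

open MeasureTheory Set ProbabilityTheory

/-!
Product measures on real configurations: events which depend on few coordinates (helper401).
-/

namespace Pool.Agent.Helper401_FP

noncomputable section

variable {ι : Type}

/-- The event `A` depends only on the coordinates in `S`. -/
def Dp (A : Set (ι → ℝ)) (S : Set ι) : Prop :=
  ∀ x x' : ι → ℝ, (∀ e ∈ S, x e = x' e) → (x ∈ A ↔ x' ∈ A)

lemma Dp.mono {A : Set (ι → ℝ)} {S T : Set ι} (h : Dp A S) (hST : S ⊆ T) : Dp A T :=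
  fun x x' hx => h x x' fun e he => hx e (hST he)

lemma Dp.inter {A B : Set (ι → ℝ)} {S : Set ι} (h : Dp A S) (h' : Dp B S) : Dp (A ∩ B) S :=
  fun x x' hx => and_congr (h x x' hx) (h' x x' hx)

lemma Dp.compl {A : Set (ι → ℝ)} {S : Set ι} (h : Dp A S) : Dp Aᶜ S :=
  fun x x' hx => not_congr (h x x' hx)

lemma Dp.iUnion {κ : Sort*} {A : κ → Set (ι → ℝ)} {S : Set ι} (h : ∀ k, Dp (A k) S) :
    Dp (⋃ k, A k) S := by
  intro x x' hx
  rw [mem_iUnion, mem_iUnion]
  exact exists_congr fun k => h k x x' hx

lemma Dp.iInter {κ : Sort*} {A : κ → Set (ι → ℝ)} {S : Set ι} (h : ∀ k, Dp (A k) S) :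
    Dp (⋂ k, A k) S := by
  intro x x' hx
  rw [mem_iInter, mem_iInter]
  exact forall_congr' fun k => h k x x' hx

/-- The coordinate `σ`-algebra. -/
def ms (S : Set ι) : MeasurableSpace (ι → ℝ) :=
  ⨆ i ∈ S, MeasurableSpace.comap (fun x : ι → ℝ => x i) inferInstance

lemma dp_meas {S : Set ι} {A : Set (ι → ℝ)} (hA : MeasurableSet A) (hd : Dp A S) :
    MeasurableSet[ms S] A := by
  classical
  set g : (ι → ℝ) → (ι → ℝ) := fun x i => if i ∈ S then x i else 0 with hg
  have hgm : @Measurable _ _ (ms S) _ g := by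
    rw [@measurable_pi_iff]
    intro i
    by_cases hi : i ∈ S
    · have h1 : (fun x : ι → ℝ => g x i) = fun x => x i := by
        funext x; simp [hg, hi]
      rw [h1]
      have h2 : MeasurableSpace.comap (fun x : ι → ℝ => x i) inferInstance ≤ ms S :=
        le_iSup₂_of_le i hi le_rfl
      exact fun s hs => h2 _ ⟨s, hs, rfl⟩
    · have h1 : (fun x : ι → ℝ => g x i) = fun _ => 0 := by
        funext x; simp [hg, hi]
      rw [h1]
      exact @measurable_const _ _ _ (ms S) _
  have h1 : A = g ⁻¹' A := by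
    ext x
    exact hd x (g x) fun e he => by simp [hg, he]
  rw [h1]
  exact hgm hA

/-- **Independence** of events depending on disjoint sets of coordinates. -/
theorem dp_indep (μ : Measure ℝ) [IsProbabilityMeasure μ] {A B : Set (ι → ℝ)} {S T : Set ι}
    (hA : MeasurableSet A) (hB : MeasurableSet B) (dA : Dp A S) (dB : Dp B T)
    (hST : Disjoint S T) :
    Measure.infinitePi (fun _ : ι => μ) (A ∩ B) =
      Measure.infinitePi (fun _ : ι => μ) A * Measure.infinitePi (fun _ : ι => μ) B := by
  have h1 : iIndepFun (fun (i : ι) (x : ι → ℝ) => x i) (Measure.infinitePi (fun _ : ι => μ)) :=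
    iIndepFun_infinitePi (X := fun _ (y : ℝ) => y) (fun _ => measurable_id)
  have h2 : iIndep (fun i : ι => MeasurableSpace.comap (fun x : ι → ℝ => x i) inferInstance)
      (Measure.infinitePi (fun _ : ι => μ)) := h1
  have h3 := indep_iSup_of_disjoint (fun i => (measurable_pi_apply i).comap_le) h2 hST
  exact (Indep_iff _ _ _).1 h3 A B (dp_meas hA dA) (dp_meas hB dB)

/-- **Approximation** by events depending on finitely many coordinates. -/
theorem dp_approx (μ : Measure ℝ) [IsProbabilityMeasure μ] {A : Set (ι → ℝ)}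
    (hA : MeasurableSet A) {ε : ENNReal} (hε : 0 < ε) :
    ∃ (I : Finset ι) (A' : Set (ι → ℝ)), MeasurableSet A' ∧ Dp A' (I : Set ι) ∧
      Measure.infinitePi (fun _ : ι => μ) (symmDiff A' A) < ε := by
  obtain ⟨A', hA', h⟩ := exists_measure_symmDiff_lt_of_generateFrom_isSetRing
    (μ := Measure.infinitePi (fun _ : ι => μ)) (C := measurableCylinders (fun _ : ι => ℝ))
    isSetRing_measurableCylinders
    ⟨{univ}, countable_singleton _, by
      rw [singleton_subset_iff]; exact univ_mem_measurableCylinders _, by simp⟩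
    (generateFrom_measurableCylinders).symm hA hε
  obtain ⟨I, S, hS, rfl⟩ := (mem_measurableCylinders _).1 hA'
  refine ⟨I, _, MeasurableSet.of_mem_measurableCylinders hA', ?_, h⟩
  intro x x' hx
  rw [mem_cylinder, mem_cylinder]
  have : I.restrict x = I.restrict x' := by
    funext i
    exact hx i i.2
  rw [this]

end

end Pool.Agent.Helper401_FP
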