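import Pool.Agent.Helper401_FP.Bll
import Pool.Agent.Helper401_FP.Ind
import Pool.Agent.Helper401_HS.Half

set_option autoImplicit false

open MeasureTheory Set ProbabilityTheory

/-!
First-passage percolation on `Z^d`: the vertex of minimal cost at a level (helper401).
-/

namespace Pool.Agent.Helper401_FP

open Pool.Agent.Y990.CB
open Pool.Agent.Helper401_HS (not_in)

noncomputable section

variable {d : ℕ}

/-- Half-spaces. -/
def Hn (i : Fin d) (t : ℤˣ) (n : ℤ) : Set (Z d) := {v | n ≤ (t : ℤ) * v i}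

open Classical in
/-- The weights inside the half-space are replaced by `M`. -/
def mk (i : Fin d) (t : ℤˣ) (n : ℤ) (M : ℝ) (x : E d → ℝ) : Sym2 (Z d) → ℝ :=
  fun s => if s ∈ (In (bondM d) (Hn i t n) : Set (Sym2 (Z d))) then M else wt x s

lemma mk_in {i : Fin d} {t : ℤˣ} {n : ℤ} {M : ℝ} {x : E d → ℝ} {s : Sym2 (Z d)}
    (h : s ∈ (In (bondM d) (Hn i t n) : Set (Sym2 (Z d)))) : mk i t n M x s = M := by
  unfold mk
  rw [if_pos h]

lemma mk_out {i : Fin d} {t : ℤˣ} {n : ℤ} {M : ℝ} {x : E d → ℝ} {s : Sym2 (Z d)}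
    (h : s ∉ (In (bondM d) (Hn i t n) : Set (Sym2 (Z d)))) : mk i t n M x s = wt x s := by
  unfold mk
  rw [if_neg h]

lemma mk_nonneg {i : Fin d} {t : ℤˣ} {n : ℤ} {M : ℝ} {x : E d → ℝ} (hM : 0 ≤ M)
    (hx : ∀ e, 0 ≤ x e) (s : Sym2 (Z d)) : 0 ≤ mk i t n M x s := by
  by_cases h : s ∈ (In (bondM d) (Hn i t n) : Set (Sym2 (Z d)))
  · rw [mk_in h]; exact hM
  · rw [mk_out h]; exact wt_nonneg hx s

/-- Cheap walks avoid the half-space. -/
lemma mk_cost {i : Fin d} {t : ℤˣ} {n : ℤ} {M : ℝ} {x : E d → ℝ} (hM : 0 ≤ M)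
    (hx : ∀ e, 0 ≤ x e) {a b : Z d} (w : (Lat d).Walk a b) (h : cost (mk i t n M x) w < M) :
    cost (wt x) w = cost (mk i t n M x) w := by
  induction w with
  | nil => rfl
  | cons hadj q ih =>
    rename_i a b c
    rw [cost_cons] at h
    have h1 := mk_nonneg (i := i) (t := t) (n := n) hM hx s(a, b)
    have h2 := cost_nonneg (mk_nonneg (i := i) (t := t) (n := n) hM hx) q
    rw [cost_cons, cost_cons, ih (by linarith)]
    have h3 : s(a, b) ∉ (In (bondM d) (Hn i t n) : Set (Sym2 (Z d))) := by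
      intro hc
      rw [mk_in hc] at h
      linarith
    rw [mk_out h3]

/-- Walks outside the half-space. -/
lemma mk_cost' {i : Fin d} {t : ℤˣ} {n : ℤ} {M : ℝ} {x : E d → ℝ} {a b : Z d}
    (w : (Lat d).Walk a b) (h : InR w (Hn i t n)ᶜ) :
    cost (mk i t n M x) w = cost (wt x) w := by
  induction w with
  | nil => rfl
  | cons hadj q ih =>
    rename_i a b c
    have ha : a ∉ Hn i t n := h a (SimpleGraph.Walk.start_mem_support _)
    have hq : InR q (Hn i t n)ᶜ := fun v hv => h v (by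
      rw [SimpleGraph.Walk.support_cons]; exact List.mem_cons_of_mem _ hv)
    rw [cost_cons, cost_cons, ih hq, mk_out (not_in ha)]

/-- The vertex `v` of level `n` has minimal cost. -/
def Ev (i : Fin d) (t : ℤˣ) (M : ℝ) (a : Z d) (n : ℤ) (v : Z d) : Set (E d → ℝ) :=
  {x | (t : ℤ) * v i = n ∧ ∃ w : (Lat d).Walk a v, cost (mk i t n M x) w < M ∧
    ∀ v' : Z d, (t : ℤ) * v' i = n → ∀ w' : (Lat d).Walk a v',
      cost (mk i t n M x) w ≤ cost (mk i t n M x) w'}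

/-- Explosion in a direction. -/
def BadD (i : Fin d) (t : ℤˣ) (M : ℝ) (a : Z d) (x : E d → ℝ) : Prop :=
  ∃ s0 < M, (∀ s < s0, (Bs (wt x) a s).Finite) ∧ ∀ n : ℤ, ∃ v ∈ Us (wt x) a s0, n ≤ (t : ℤ) * v i

/-- Entrance of a cheap walk into the half-space. -/
lemma enter {i : Fin d} {t : ℤˣ} {n : ℤ} {x : E d → ℝ} (hx : ∀ e, 0 ≤ x e) {a : Z d}
    (ha : (t : ℤ) * a i < n) {s0 : ℝ} {v1 : Z d} (hv : v1 ∈ Us (wt x) a s0)
    (hn : n ≤ (t : ℤ) * v1 i) (M : ℝ) :
    ∃ (v : Z d) (w : (Lat d).Walk a v), (t : ℤ) * v i = n ∧ cost (mk i t n M x) w < s0 := by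
  obtain ⟨w1, hw1⟩ := hv
  have haF : a ∈ (Hn i t n)ᶜ := fun hc => absurd (show n ≤ (t : ℤ) * a i from hc) (not_le.2 ha)
  have hvF : v1 ∉ (Hn i t n)ᶜ := fun hc => hc hn
  obtain ⟨u, v, p, q, huv, h1, h2, h3, h4⟩ := exit_set (W := wt x) w1 haF hvF
  have h2' : n ≤ (t : ℤ) * v i := by
    by_contra hc
    exact h2 hc
  have h1' : (t : ℤ) * u i < n := by
    by_contra hc
    exact h1 (not_lt.1 hc)
  have hnb := Nb_coord (show Nb u v from huv) i
  have hlev : (t : ℤ) * v i = n := by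
    have h5 := abs_le.1 hnb
    rcases Int.units_eq_one_or t with rfl | rfl
    · simp only [Units.val_one, one_mul] at *
      omega
    · simp only [Units.val_neg, Units.val_one, neg_mul, one_mul] at *
      omega
  refine ⟨v, p.append (SimpleGraph.Walk.cons huv SimpleGraph.Walk.nil), hlev, ?_⟩
  rw [cost_append, cost_cons, cost_nil, mk_cost' p h3, mk_out (not_in h1)]
  have h6 := cost_nonneg (wt_nonneg hx) q
  linarith

/-- On the explosion event the minimal vertex exists at every level. -/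
lemma Ev_of_bad {i : Fin d} {t : ℤˣ} {M : ℝ} (hM : 0 ≤ M) {a : Z d} {x : E d → ℝ}
    (hx : ∀ e, 0 ≤ x e) (hb : BadD i t M a x) {n : ℤ} (hn : (t : ℤ) * a i < n) :
    ∃ v, x ∈ Ev i t M a n v := by
  obtain ⟨s0, hs0, hfin, hun⟩ := hb
  obtain ⟨v1, hv1, hnv⟩ := hun n
  obtain ⟨v2, w2, hv2, hw2⟩ := enter hx hn hv1 hnv M
  set V := mk i t n M x with hV
  have hV0 : ∀ s, 0 ≤ V s := mk_nonneg hM hx
  set s := cost V w2 with hs
  have hR : (Bs (wt x) a s).Finite := hfin s hw2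
  have hin : ∀ (v : Z d) (w : (Lat d).Walk a v), cost V w ≤ s → InR w (Bs (wt x) a s) := by
    intro v w hw
    have := mk_cost hM hx w (by linarith : cost V w < M)
    exact InR_Bs (wt_nonneg hx) w (by rw [this]; exact hw)
  set L : Set (Z d) := {v | (t : ℤ) * v i = n ∧ ∃ w : (Lat d).Walk a v, cost V w ≤ s} with hL
  have hLfin : L.Finite := by
    refine hR.subset ?_
    rintro v ⟨_, w, hw⟩
    exact hin v w hw v w.end_mem_support
  have hmin : ∀ v ∈ L, ∃ m, (∃ w : (Lat d).Walk a v, cost V w = m) ∧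
      ∀ w' : (Lat d).Walk a v, m ≤ cost V w' := by
    rintro v ⟨_, w, hw⟩
    obtain ⟨w0, hw0⟩ := min_of_fin hV0 hR ⟨w, hw⟩ (fun w' hw' => ⟨w', hin v w' hw', le_rfl⟩)
    exact ⟨cost V w0, ⟨w0, rfl⟩, hw0⟩
  choose! m hm1 hm2 using hmin
  obtain ⟨v0, hv0, hle⟩ := Set.exists_min_image L m hLfin ⟨v2, hv2, w2, le_rfl⟩
  obtain ⟨w0, hw0⟩ := hm1 v0 hv0
  have h2L : m v2 ≤ s := hm2 v2 ⟨hv2, w2, le_rfl⟩ w2
  have h0s : cost V w0 ≤ s := by
    rw [hw0]
    exact (hle v2 ⟨hv2, w2, le_rfl⟩).trans h2L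
  refine ⟨v0, hv0.1, w0, by linarith, fun v' hv' w' => ?_⟩
  by_cases h : cost V w' ≤ s
  · have hv'L : v' ∈ L := ⟨hv', w', h⟩
    rw [hw0]
    exact (hle v' hv'L).trans (hm2 v' hv'L w')
  · push Not at h
    linarith

/-- On the explosion event the minimal vertex has a finite zero cluster. -/
lemma Ev_fin {i : Fin d} {t : ℤˣ} {M : ℝ} (hM : 0 ≤ M) {a : Z d} {x : E d → ℝ}
    (hx : ∀ e, 0 ≤ x e) (hb : BadD i t M a x) {n : ℤ} (hn : (t : ℤ) * a i < n) {v : Z d}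
    (hv : x ∈ Ev i t M a n v) : (cl (bondM d) (zc (wt x)) (Hn i t n) v).Finite := by
  obtain ⟨s0, hs0, hfin, hun⟩ := hb
  obtain ⟨v1, hv1, hnv⟩ := hun n
  obtain ⟨v2, w2, hv2, hw2⟩ := enter hx hn hv1 hnv M
  obtain ⟨_, w, hw, hmin⟩ := hv
  have h1 := hmin v2 hv2 w2
  have h2 := mk_cost hM hx w hw
  have hvB : v ∈ Bs (wt x) a (cost (mk i t n M x) w) := ⟨w, h2.le⟩
  have h3 := hfin _ (lt_of_le_of_lt h1 hw2)
  refine (h3.subset (Zc_sub hvB)).subset ?_
  exact cl_mono (M := bondM d) (fun _ h => h) (subset_univ _) v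

/-- An explosion takes place in some direction. -/
lemma badD_of_bad {x : E d → ℝ} {a : Z d} (hb : Bad (wt x) a) :
    ∃ (i : Fin d) (t : ℤˣ) (M : ℕ), BadD i t M a x := by
  obtain ⟨s0, hfin, hinf⟩ := hb
  obtain ⟨M, hM⟩ := exists_nat_gt s0
  by_contra hc
  push Not at hc
  have h1 : ∀ (i : Fin d) (t : ℤˣ), ∃ n : ℤ, ∀ v ∈ Us (wt x) a s0, (t : ℤ) * v i < n := by
    intro i t
    by_contra h
    push Not at h
    exact hc i t M ⟨s0, hM, hfin, h⟩
  choose n hn using h1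
  refine hinf ?_
  set N : ℕ := Finset.univ.sup (fun i : Fin d => max (n i 1).natAbs (n i (-1)).natAbs) with hN
  refine (Bo_finite (0 : Z d) N).subset ?_
  intro v hv i
  have h2 := hn i 1 v hv
  have h3 := hn i (-1) v hv
  have h4 : max (n i 1).natAbs (n i (-1)).natAbs ≤ N :=
    Finset.le_sup (f := fun i : Fin d => max (n i 1).natAbs (n i (-1)).natAbs) (Finset.mem_univ i)
  have h5 := le_trans (le_max_left _ _) h4
  have h6 := le_trans (le_max_right _ _) h4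
  simp only [Units.val_one, one_mul, Units.val_neg, neg_mul] at h2 h3
  rw [Pi.zero_apply, sub_zero, abs_le]
  constructor <;> omega

end

end Pool.Agent.Helper401_FP
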