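import Pool.Agent.Helper401_FP.Law
import Pool.Agent.Helper401_FP.Fmt
import Pool.Agent.Y990.CB.Rob

set_option autoImplicit false

open MeasureTheory Set ProbabilityTheory Filter
open scoped Topology

/-!
First-passage percolation on `Z^d`: minimal paths below the critical point (helper401).
-/

namespace Pool.Agent.Helper401_FP

open Pool.Agent.Y990.CB
open Pool.Agent.W783.PC (pm DepOn Inc bern)

noncomputable section

variable {d : ℕ} {W : Sym2 (Z d) → ℝ}

lemma Perc_dep (x : Z d) : DepOn (Perc (bondM d) x) (Ed d) := by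
  intro ω ω' h
  have hg : G (bondM d) ω univ = G (bondM d) ω' univ :=
    graph_congr fun c hc => h c (In_sub_Ed _ hc)
  show (cl (bondM d) ω univ x).Infinite ↔ (cl (bondM d) ω' univ x).Infinite
  unfold cl
  rw [hg]

lemma th_mono (M : Mod d) {p q : unitInterval} (h : p ≤ q) : th M p ≤ th M q := by
  have h1 := Pool.Agent.W400.PC.s_mono M.ι (fun _ => p) (fun _ => q) (Perc M 0) (fun _ => h)
    (Perc_inc M 0) (Perc_meas M 0)
  exact ENNReal.toReal_mono (measure_ne_top _ _) h1

lemma th_zero_of_lt (M : Mod d) {q : unitInterval} (h : q < pc M) : th M q = 0 := by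
  have hlt : (q : ℝ) < sSup {x : ℝ | ∃ q : unitInterval, (q : ℝ) = x ∧ th M q = 0} := h
  have hne : {x : ℝ | ∃ q : unitInterval, (q : ℝ) = x ∧ th M q = 0}.Nonempty := by
    by_contra hc
    rw [Set.not_nonempty_iff_eq_empty] at hc
    rw [hc, Real.sSup_empty] at hlt
    exact absurd q.2.1 (not_le.2 hlt)
  obtain ⟨y, ⟨q', rfl, hq'⟩, hy⟩ := exists_lt_of_lt_csSup hne hlt
  have h1 : q ≤ q' := le_of_lt (show (q : ℝ) < q' from hy)
  exact le_antisymm ((th_mono M h1).trans hq'.le) measureReal_nonneg

/-- The configuration of the edges of weight at most `δ`. -/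
def lc (δ : ℝ) (W : Sym2 (Z d) → ℝ) : Sym2 (Z d) → Bool := fun s => decide (W s ≤ δ)

/-- The vertices reached with at most `m` heavy edges. -/
def Dm (δ : ℝ) (W : Sym2 (Z d) → ℝ) (x : Z d) : ℕ → Set (Z d)
  | 0 => cl (bondM d) (lc δ W) univ x
  | m + 1 => Dm δ W x m ∪ ⋃ v ∈ Dm δ W x m, ⋃ i : Fin d,
      (cl (bondM d) (lc δ W) univ (v + Pi.single i (1 : ℤ)) ∪
        cl (bondM d) (lc δ W) univ (v - Pi.single i (1 : ℤ)))

lemma Dm_fin {δ : ℝ} (h : ∀ v, (cl (bondM d) (lc δ W) univ v).Finite) (x : Z d) (m : ℕ) :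
    (Dm δ W x m).Finite := by
  induction m with
  | zero => exact h x
  | succ m ih =>
    exact ih.union (ih.biUnion fun v _ => Set.finite_iUnion fun i => (h _).union (h _))

lemma Dm_closed {δ : ℝ} (x : Z d) (m : ℕ) {v : Z d} (hv : v ∈ Dm δ W x m) :
    cl (bondM d) (lc δ W) univ v ⊆ Dm δ W x m := by
  induction m with
  | zero =>
    intro u hu
    exact SimpleGraph.Reachable.trans hv hu
  | succ m ih =>
    rcases hv with hv | hv
    · exact fun u hu => Or.inl (ih hv hu)
    · intro u hu
      right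
      simp only [mem_iUnion] at hv ⊢
      obtain ⟨w, hw, i, hi⟩ := hv
      refine ⟨w, hw, i, ?_⟩
      rcases hi with hi | hi
      · exact Or.inl (SimpleGraph.Reachable.trans hi hu)
      · exact Or.inr (SimpleGraph.Reachable.trans hi hu)

lemma Dm_mono {δ : ℝ} (x : Z d) {m n : ℕ} (h : m ≤ n) : Dm δ W x m ⊆ Dm δ W x n := by
  induction h with
  | refl => exact Subset.refl _
  | step _ ih => exact ih.trans subset_union_left

lemma walk_Dm {δ : ℝ} (hW : ∀ s, 0 ≤ W s) (x : Z d) {a b : Z d}
    (w : (Lat d).Walk a b) : ∀ (m k : ℕ), a ∈ Dm δ W x m → cost W w < (k + 1) * δ →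
    InR w (Dm δ W x (m + k)) := by
  induction w with
  | nil =>
    intro m k ha _ v hv
    rw [SimpleGraph.Walk.support_nil, List.mem_singleton] at hv
    rw [hv]
    exact Dm_mono x (by omega) ha
  | cons h q ih =>
    rename_i a b c
    intro m k ha hc
    rw [cost_cons] at hc
    have hq0 := cost_nonneg hW q
    have ha0 := hW s(a, b)
    have key : InR q (Dm δ W x (m + k)) := by
      by_cases hl : W s(a, b) ≤ δ
      · have hb : b ∈ Dm δ W x m := by
          refine Dm_closed x m ha ?_
          refine SimpleGraph.Adj.reachable ⟨h, mem_univ _, mem_univ _, fun c hc' => ?_⟩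
          have : c = s(a, b) := Finset.mem_singleton.1 hc'
          subst this
          exact decide_eq_true hl
        exact ih m k hb (by linarith)
      · push Not at hl
        have hk : 1 ≤ k := by
          by_contra hk
          have : k = 0 := by omega
          subst this
          push_cast at hc
          linarith
        have hb : b ∈ Dm δ W x (m + 1) := by
          right
          simp only [mem_iUnion]
          obtain ⟨i, hi | hi⟩ := Nb_cases (show Nb a b from h)
          · exact ⟨a, ha, i, Or.inl (by rw [hi]; exact SimpleGraph.Reachable.refl _)⟩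
          · exact ⟨a, ha, i, Or.inr (by
              have : a - Pi.single i (1 : ℤ) = b := by rw [hi]; simp
              rw [this]; exact SimpleGraph.Reachable.refl _)⟩
        have hk' : ((k - 1 : ℕ) : ℝ) = k - 1 := by
          rw [Nat.cast_sub hk]; simp
        have := ih (m + 1) (k - 1) hb (by rw [hk']; linarith)
        have e : m + 1 + (k - 1) = m + k := by omega
        rwa [e] at this
    intro v hv
    rw [SimpleGraph.Walk.support_cons, List.mem_cons] at hv
    rcases hv with rfl | hv
    · exact Dm_mono x (by omega) ha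
    · exact key v hv

/-- Deterministic part. -/
theorem min_of_light {δ : ℝ} (hδ : 0 < δ) (hW : ∀ s, 0 ≤ W s)
    (h : ∀ v, (cl (bondM d) (lc δ W) univ v).Finite) (x y : Z d) :
    ∃ w : (Lat d).Walk x y, ∀ w' : (Lat d).Walk x y, cost W w ≤ cost W w' := by
  obtain ⟨w0⟩ := lat_reach x y
  obtain ⟨k, hk⟩ := exists_nat_gt (cost W w0 / δ)
  refine min_of_fin hW (Dm_fin h x (0 + k)) ⟨w0, le_rfl⟩ fun w hw => ⟨w, ?_, le_rfl⟩
  refine walk_Dm hW x w 0 k (SimpleGraph.Reachable.refl _) ?_
  rw [div_lt_iff₀ hδ] at hk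
  linarith

/-- Minimal paths exist below the critical point. -/
theorem sub (d : ℕ) (μ : Measure ℝ) [IsProbabilityMeasure μ] (p : unitInterval)
    (hneg : μ (Iio 0) = 0) (hp0 : μ {0} = ENNReal.ofReal p) (hpc : p < pc (bondM d))
    (Ω : Type) [MeasurableSpace Ω] (P : Measure Ω) [IsProbabilityMeasure P]
    (X : E d → Ω → ℝ) (hX : ∀ e, Measurable (X e)) (hi : iIndepFun X P)
    (hμ : ∀ e, Measure.map (X e) P = μ) :
    ∀ᵐ ω ∂P, ∀ x y : Z d, ∃ w : (Lat d).Walk x y, ∀ w' : (Lat d).Walk x y,
      cost (wt fun e => X e ω) w ≤ cost (wt fun e => X e ω) w' := by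
  classical
  -- the weights are nonnegative
  have hnn : ∀ᵐ ω ∂P, ∀ e, 0 ≤ X e ω := by
    rw [ae_all_iff]
    intro e
    have h1 : P {ω | X e ω ∈ Iio (0 : ℝ)} = 0 := by
      have := Measure.map_apply (hX e) (measurableSet_Iio (a := (0 : ℝ))) (μ := P)
      rw [hμ e, hneg] at this
      exact this.symm
    rw [ae_iff]
    convert h1 using 2
    ext ω
    simp
  -- choice of δ
  have hIic0 : μ (Iic (0 : ℝ)) = ENNReal.ofReal p := by
    have e : Iic (0 : ℝ) = Iio 0 ∪ {0} := by
      ext x
      simp [le_iff_lt_or_eq]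
    rw [e, measure_union (by simp) (measurableSet_singleton _), hneg, zero_add, hp0]
  have htend : Tendsto (fun n : ℕ => μ (Iic (1 / ((n : ℝ) + 1)))) atTop (𝓝 (μ (Iic (0 : ℝ)))) := by
    have e : Iic (0 : ℝ) = ⋂ n : ℕ, Iic (1 / ((n : ℝ) + 1)) := by
      ext x
      simp only [mem_Iic, mem_iInter]
      constructor
      · intro hx n
        exact hx.trans (by positivity)
      · intro hx
        refine ge_of_tendsto' tendsto_one_div_add_atTop_nhds_zero_nat hx
    rw [e]
    refine tendsto_measure_iInter_atTop (fun n => measurableSet_Iic.nullMeasurableSet) ?_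
      ⟨0, measure_ne_top _ _⟩
    intro m n hmn
    refine Iic_subset_Iic.2 ?_
    have : (m : ℝ) ≤ n := by exact_mod_cast hmn
    exact one_div_le_one_div_of_le (by positivity) (by linarith)
  have hlt : μ (Iic (0 : ℝ)) < ENNReal.ofReal (pc (bondM d)) := by
    rw [hIic0]
    have h1 : (p : ℝ) < pc (bondM d) := hpc
    exact (ENNReal.ofReal_lt_ofReal_iff (lt_of_le_of_lt p.2.1 h1)).2 h1
  obtain ⟨n, hn⟩ := ((tendsto_order.1 htend).2 _ hlt).exists
  set δ : ℝ := 1 / ((n : ℝ) + 1) with hδd
  have hδ : 0 < δ := by positivity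
  set q : unitInterval := ⟨(μ (Iic δ)).toReal, ENNReal.toReal_nonneg, by
    have := prob_le_one (μ := μ) (s := Iic δ)
    exact ENNReal.toReal_le_of_le_ofReal zero_le_one (by simpa using this)⟩ with hq
  have hμq : μ (Iic δ) = ENNReal.ofReal q := (ENNReal.ofReal_toReal (measure_ne_top _ _)).symm
  have hqpc : q < pc (bondM d) := by
    rw [hμq] at hn
    exact (ENNReal.ofReal_lt_ofReal_iff_of_nonneg q.2.1).1 hn
  have hth := th_zero_of_lt (bondM d) hqpc
  -- the clusters of light edges are finite
  have hfin : ∀ᵐ ω ∂P, ∀ v, (cl (bondM d) (lc δ (wt fun e => X e ω)) univ v).Finite := by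
    rw [ae_all_iff]
    intro v
    have h1 := law_set hX hi hμ (measurableSet_Iic (a := δ)) q hμq (Perc_meas (bondM d) v)
      (Perc_dep v)
    have h2 : mu (bondM d) q (Perc (bondM d) v) = 0 := by
      have := Perc_shift (bondM d) q v
      rw [hth, measureReal_eq_zero_iff] at this
      exact this
    rw [h2] at h1
    rw [ae_iff]
    convert h1 using 2
    ext ω
    have h3 : (ex fun e => decide (X e ω ∈ Iic δ)) ∈ Perc (bondM d) v ↔
        lc δ (wt fun e => X e ω) ∈ Perc (bondM d) v := by
      refine Perc_dep v _ _ ?_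
      rintro _ ⟨e, rfl⟩
      rw [ex_ed]
      unfold lc
      rw [wt_ed]
      simp
    exact h3.symm
  filter_upwards [hnn, hfin] with ω h0 h1 x y
  exact min_of_light hδ (wt_nonneg h0) h1 x y

end

end Pool.Agent.Helper401_FP
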