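import Pool.Agent.Helper401_FP.Sup
import Pool.Agent.Helper401_FP.Sub

set_option autoImplicit false

open MeasureTheory Set ProbabilityTheory Filter
open scoped Topology

/-!
First-passage percolation on `Z^d`: comparison of the definitions of the critical probability, and
sequences along residue classes (helper401).
-/

namespace Pool.Agent.Helper401_FP

open Pool.Agent.Y990.CB
open Pool.Agent.W783.PC (pm DepOn Inc bern)
open Pool.Agent.Helper401_HS (adjb)

noncomputable section

variable {d : ℕ}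

/-- Joined by an open edge. -/
def Opn (η : E d → Bool) (x y : Z d) : Prop :=
  ∃ e : E d, η e = true ∧ ((x = e.1 ∧ y = e.1 + Pi.single e.2 (1 : ℤ)) ∨
    (y = e.1 ∧ x = e.1 + Pi.single e.2 (1 : ℤ)))

lemma adj_Opn {η : E d → Bool} {x y : Z d} :
    (G (bondM d) (ex η) univ).Adj x y ↔ Opn η x y := by
  rw [adjb]
  constructor
  · rintro ⟨h1, _, _, h4⟩
    obtain ⟨e, he⟩ := exists_ed h1
    refine ⟨e, ?_, ?_⟩
    · rw [← ex_ed η e, he]; exact h4
    · have h5 : s(e.1, e.1 + Pi.single e.2 (1 : ℤ)) = s(x, y) := he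
      rw [Sym2.eq_iff] at h5
      rcases h5 with ⟨h6, h7⟩ | ⟨h6, h7⟩
      · exact Or.inl ⟨h6.symm, h7.symm⟩
      · exact Or.inr ⟨h6.symm, h7.symm⟩
  · rintro ⟨e, h1, h2⟩
    rcases h2 with ⟨rfl, rfl⟩ | ⟨rfl, rfl⟩
    · refine ⟨Nb_single _ _, trivial, trivial, ?_⟩
      have := ex_ed η e
      unfold ed at this
      rw [this]; exact h1
    · refine ⟨Nb_comm.1 (Nb_single _ _), trivial, trivial, ?_⟩
      have := ex_ed η e
      unfold ed at this
      rw [Sym2.eq_swap, this]; exact h1

lemma cl_Opn (η : E d → Bool) :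
    cl (bondM d) (ex η) univ 0 = {y | Relation.ReflTransGen (Opn η) 0 y} := by
  ext y
  show (G (bondM d) (ex η) univ).Reachable 0 y ↔ Relation.ReflTransGen (Opn η) 0 y
  rw [SimpleGraph.reachable_iff_reflTransGen]
  have h : (G (bondM d) (ex η) univ).Adj = Opn η := by
    funext x y
    exact propext adj_Opn
  rw [h]

lemma th_Opn (p : unitInterval) :
    (Measure.infinitePi (fun _ : E d => bern p)).real
      {η | ({y | Relation.ReflTransGen (Opn η) 0 y} : Set (Z d)).Infinite} =
      th (bondM d) p := by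
  have h1 := mu_ex (d := d) (p := p) (Perc_meas (bondM d) 0) (Perc_dep 0)
  have h2 : {η : E d → Bool | ({y | Relation.ReflTransGen (Opn η) 0 y} : Set (Z d)).Infinite} =
      {η | ex η ∈ Perc (bondM d) 0} := by
    ext η
    rw [mem_ofPred_eq, ← cl_Opn η]
    rfl
  rw [h2]
  exact congrArg ENNReal.toReal h1

/-- A divergent series diverges along a residue class. -/
lemma residue {t : ℕ → ℝ} (ht : ∀ j, 0 ≤ t j) (hdiv : ¬ Summable t) {c : ℕ} (hc : 1 ≤ c) :
    ∃ r < c, ¬ Summable (fun j => t (c * j + r)) := by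
  by_contra hcon
  push Not at hcon
  refine hdiv ?_
  have h1 : Summable (fun q : Fin c × ℕ => t (c * q.2 + q.1)) := by
    rw [summable_prod_of_nonneg (fun q => ht _)]
    exact ⟨fun r => hcon r r.2, Summable.of_finite⟩
  have hinj : Function.Injective (fun n : ℕ => ((⟨n % c, Nat.mod_lt _ hc⟩ : Fin c), n / c)) := by
    intro m n h
    have h2 := (Prod.mk.inj h).1
    have h3 := (Prod.mk.inj h).2
    have h4 : m % c = n % c := congrArg Fin.val h2
    rw [← Nat.div_add_mod m c, ← Nat.div_add_mod n c, h3, h4]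
  refine (h1.comp_injective hinj).congr fun n => ?_
  show t (c * (n / c) + n % c) = t n
  rw [Nat.div_add_mod]

end

end Pool.Agent.Helper401_FP
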