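import Pool.Agent.Helper401_FP.Exps
import Pool.Agent.Helper401_FP.Crit

set_option autoImplicit false

open MeasureTheory Set ProbabilityTheory Filter
open scoped Topology

/-!
First-passage percolation on `Z^d`, `d ≥ 3`: minimal paths when the mass at zero is above the
critical probability (helper401).
-/

namespace Pool.Agent.Helper401_FP

open Pool.Agent.Y990.CB
open Pool.Agent.W783.PC (pm DepOn Inc bern)
open Pool.Agent.Helper401_HS (PH cl_meas cl_meas' half mb)

noncomputable section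

variable {d : ℕ}

/-- Two infinite clusters. -/
def Nu (M : Mod d) (u v : Z d) : Set (M.ι → Bool) :=
  {ω | (cl M ω univ u).Infinite ∧ (cl M ω univ v).Infinite ∧ v ∉ cl M ω univ u}

lemma Nu_meas (M : Mod d) (u v : Z d) : MeasurableSet (Nu M u v) :=
  (cl_meas' M univ u).inter ((cl_meas' M univ v).inter (Cn_meas M univ u v).compl)

lemma arm_of_inf {M : Mod d} {ω : M.ι → Bool} {u : Z d} {n : ℕ} (hu : u ∈ Bo (0 : Z d) n)
    (h : (cl M ω univ u).Infinite) : Am M ω 0 n u := by
  obtain ⟨y, hy, hy'⟩ := h.exists_notMem_finset (Bf 0 n)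
  exact exit_Am hu (Or.inl fun hc => hy' (mem_Bf.2 hc)) hy

/-- The infinite cluster is unique. -/
lemma Nu_zero (hd : 3 ≤ d) {p : unitInterval} (hp : pc (bondM d) ≤ p) (u v : Z d) :
    mu (bondM d) p (Nu (bondM d) u v) = 0 := by
  obtain ⟨A, hA2, hA⟩ := two_arm hd
  set k := max (nm u) (nm v) with hk
  have hu : u ∈ Bo (0 : Z d) k := by
    have := mem_Bo_nm 0 u
    rw [zero_add] at this
    exact Bo_mono 0 (le_max_left _ _) this
  have hv : v ∈ Bo (0 : Z d) k := by
    have := mem_Bo_nm 0 v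
    rw [zero_add] at this
    exact Bo_mono 0 (le_max_right _ _) this
  have hsub : ∀ n, (k + 2) ^ A ≤ n → Nu (bondM d) u v ⊆ Ta (bondM d) 0 k n := by
    intro n hn ω hω
    have hkn : k ≤ n := by
      calc k ≤ k + 2 := by omega
        _ = (k + 2) ^ 1 := (pow_one _).symm
        _ ≤ (k + 2) ^ A := Nat.pow_le_pow_right (by omega) (by omega)
        _ ≤ n := hn
    refine ⟨u, hu, v, hv, arm_of_inf (Bo_mono 0 hkn hu) hω.1, arm_of_inf (Bo_mono 0 hkn hv) hω.2.1,
      fun hc => hω.2.2 ?_⟩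
    exact reach_mono (subset_univ _) hc
  have hle : ∀ n : ℕ, (k + 2) ^ A ≤ n →
      (mu (bondM d) p).real (Nu (bondM d) u v) ≤ 8 * (n : ℝ) ^ (-(1 / 50 : ℝ)) := fun n hn =>
    (measureReal_mono (hsub n hn) (measure_ne_top _ _)).trans (hA p hp k n hn)
  have htend : Tendsto (fun n : ℕ => 8 * (n : ℝ) ^ (-(1 / 50 : ℝ))) atTop (𝓝 (8 * 0)) :=
    ((tendsto_rpow_neg_atTop (by norm_num)).comp tendsto_natCast_atTop_atTop).const_mul 8
  rw [mul_zero] at htend
  have h0 : (mu (bondM d) p).real (Nu (bondM d) u v) ≤ 0 :=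
    ge_of_tendsto htend (eventually_atTop.2 ⟨(k + 2) ^ A, hle⟩)
  have h1 : (mu (bondM d) p).real (Nu (bondM d) u v) = 0 := le_antisymm h0 measureReal_nonneg
  exact (measureReal_eq_zero_iff (measure_ne_top _ _)).1 h1

lemma Nu_dep (u v : Z d) : DepOn (Nu (bondM d) u v) (Ed d) := by
  intro ω ω' h
  have hg : G (bondM d) ω univ = G (bondM d) ω' univ :=
    graph_congr (M := bondM d) fun c hc => h c (In_sub_Ed _ hc)
  show ((cl (bondM d) ω univ u).Infinite ∧ (cl (bondM d) ω univ v).Infinite ∧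
    v ∉ cl (bondM d) ω univ u) ↔ ((cl (bondM d) ω' univ u).Infinite ∧
    (cl (bondM d) ω' univ v).Infinite ∧ v ∉ cl (bondM d) ω' univ u)
  unfold cl
  rw [hg]

/-- **Minimal walks above the critical point.** -/
theorem sup (hd : 3 ≤ d) (μ : Measure ℝ) [IsProbabilityMeasure μ] (p : unitInterval)
    (hneg : μ (Iio 0) = 0) (hp0 : μ {0} = ENNReal.ofReal p) (hpc : pc (bondM d) < p)
    (Ω : Type) [MeasurableSpace Ω] (P : Measure Ω) [IsProbabilityMeasure P]
    (X : E d → Ω → ℝ) (hX : ∀ e, Measurable (X e)) (hi : iIndepFun X P)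
    (hμ : ∀ e, Measure.map (X e) P = μ) :
    ∀ᵐ ω ∂P, ∀ x y : Z d, ∃ w : (Lat d).Walk x y, ∀ w' : (Lat d).Walk x y,
      cost (wt fun e => X e ω) w ≤ cost (wt fun e => X e ω) w' := by
  classical
  -- the weights are nonnegative
  have hnn : ∀ᵐ ω ∂P, ∀ e, 0 ≤ X e ω := by
    rw [ae_all_iff]
    intro e
    have h1 : P {ω | X e ω ∈ Iio (0 : ℝ)} = 0 := by
      have := Measure.map_apply (hX e) (measurableSet_Iio (a := (0 : ℝ))) (μ := P)
      rw [hμ e, hneg] at this
      exact this.symm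
    rw [ae_iff]
    convert h1 using 2
    ext ω
    simp
  -- the law of the family
  have hlaw : P.map (fun ω e => X e ω) = Measure.infinitePi (fun _ : E d => μ) := by
    have h3 := (iIndepFun_iff_map_fun_eq_infinitePi_map₀' (fun e => (hX e).aemeasurable)).1 hi
    rw [h3]
    congr 1
    funext e
    exact hμ e
  have hXm : Measurable (fun (ω : Ω) (e : E d) => X e ω) := measurable_pi_lambda _ hX
  obtain ⟨f, hf⟩ := exists_surjective_nat (Z d)
  -- no explosion
  have hexp : ∀ᵐ ω ∂P, ∀ (i : Fin d) (t : ℤˣ) (M : ℕ) (a : Z d),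
      (fun e => X e ω) ∉ As i t M a f := by
    rw [ae_all_iff]; intro i
    rw [ae_all_iff]; intro t
    rw [ae_all_iff]; intro M
    rw [ae_all_iff]; intro a
    have h1 := As_zero μ p hp0 i (half hd hpc i) t (M : ℝ) a f
    rw [← hlaw, Measure.map_apply hXm (As_meas i t M a f)] at h1
    rw [ae_iff]
    convert h1 using 2
    ext ω
    simp
  -- uniqueness
  have huni : ∀ᵐ ω ∂P, ∀ u v : Z d, zc (wt fun e => X e ω) ∉ Nu (bondM d) u v := by
    rw [ae_all_iff]; intro u
    rw [ae_all_iff]; intro v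
    have h1 := law_zc hX hi hμ p hp0 (Nu_meas (bondM d) u v) (Nu_dep u v)
    rw [Nu_zero hd hpc.le] at h1
    rw [ae_iff]
    convert h1 using 2
    ext ω
    exact not_not
  filter_upwards [hnn, hexp, huni] with ω h1 h2 h3 x y
  refine min_of_no_bad (wt_nonneg h1) ?_ ?_ x y
  · intro a hb
    obtain ⟨i, t, M, hbD⟩ := badD_of_bad hb
    exact h2 i t M a (bad_sub_As (Nat.cast_nonneg M) hf h1 hbD)
  · intro u v hu hv
    by_contra hc
    exact h3 u v ⟨hu, hv, hc⟩

end

end Pool.Agent.Helper401_FP
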